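import Pool.Agent.H724.ST.Stm

set_option autoImplicit false

/-!
# Star problem: immortal pairs give non-members (S_B1)
-/

namespace Pool.Agent.H903.STB1

open Pool.Agent.H724.ST

theorem count_rn (n : ℕ) : (rn n).count true = 0 := by
  simp [rn, List.count_replicate]

theorem count_blk (C : Chk) (x : ℕ) : (blk C x).count true = 1 := by
  simp [blk, count_rn]

theorem count_blks (C : Chk) (x : ℕ → ℕ) (n : ℕ) : (blks C x n).count true = n := by
  induction n with
  | zero => simp [blks]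
  | succ n ih => simp [blks, ih, count_blk]

theorem run_le (C : Chk) (hC : WF C) (x y : ℕ → ℕ) (i j t : ℕ) : run C x y i j t ≤ C.N := by
  cases t with
  | zero => exact hC.hN
  | succ t =>
    rw [run]
    split_ifs
    · exact Nat.zero_le _
    · exact hC.hd _ _ _

theorem arith (N a b q r : ℕ) (hq1 : 1 ≤ q) (hq : q ≤ N) (hr1 : 1 ≤ r) (hr : r ≤ N)
    (h : (a + 1) * (N + 1) - q = (b + 1) * (N + 1) - r) : a = b ∧ q = r := by
  have ha : N + 1 ≤ (a + 1) * (N + 1) := Nat.le_mul_of_pos_left _ (Nat.succ_pos _)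
  have hb : N + 1 ≤ (b + 1) * (N + 1) := Nat.le_mul_of_pos_left _ (Nat.succ_pos _)
  have h1 : (a + 1) * (N + 1) + r = (b + 1) * (N + 1) + q := by omega
  have h2 : r = q := by
    have h3 := congrArg (· % (N + 1)) h1
    simp only [Nat.mul_add_mod_self_right] at h3
    rwa [Nat.mod_eq_of_lt (by omega), Nat.mod_eq_of_lt (by omega)] at h3
  subst h2
  refine ⟨?_, rfl⟩
  have h4 : (a + 1) * (N + 1) = (b + 1) * (N + 1) := by omega
  have := Nat.eq_of_mul_eq_mul_right (Nat.succ_pos N) h4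
  omega

theorem rn_pos (q : ℕ) (hq : 1 ≤ q) : rn q = false :: rn (q - 1) := by
  obtain ⟨q, rfl⟩ : ∃ r, q = r + 1 := ⟨q - 1, by omega⟩
  simp [rn, List.replicate_succ]

theorem main (h1 : S_SC) (h2 : S_OK) (h3 : S_OKU) (h4 : S_INV) (h5 : S_CUT)
    (C : Chk) (hC : WF C) (x y : ℕ → ℕ) (hI : ImmC C x y) (i j : ℕ) (u v : List Bool)
    (h : StP (Lp C) u v) : ∀ i0 j0 q i' j' t : ℕ, i' + t = i0 → j' + t = j0 →
      run C x y i' j' t = q →
      ¬ (blks C x i0 ++ (rn (q - 1) ++ u) = blks C x i ∧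
        blks C y j0 ++ (rn (q - 1) ++ v) = blks C y j ++ [false]) := by
  have hE : 2 ≤ C.E := by
    have h6 := hC.hp
    have h7 := hC.hN
    have : 1 * 2 ≤ C.p * (C.N + 1) := Nat.mul_le_mul h6 (by omega)
    simpa [Chk.E] using this
  have okx : OK C (blks C x i) := by
    have := h3 C hC x i (hI.cx i) 0 (by omega)
    simpa [rn] using this
  have oky : OK C (blks C y j ++ [false]) := by
    have := h3 C hC y j (hI.cy j) 1 (by omega)
    simpa [rn] using this
  obtain ⟨-, -, -, -, -, -, -, hpre⟩ := h1 C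
  induction h with
  | nil =>
    rintro i0 j0 q i' j' t hi hj hq ⟨e1, e2⟩
    have c1 := congrArg (List.count true) e1
    have c2 := congrArg (List.count true) e2
    simp only [List.count_append, count_blks, count_rn, List.count_nil] at c1 c2
    have c3 : i0 = i := by omega
    have c4 : j0 = j := by
      have : List.count true [false] = 0 := by decide
      omega
    subst c3 c4
    have d1 : rn (q - 1) ++ [] = [] := by
      have : blks C x i0 ++ (rn (q - 1) ++ []) = blks C x i0 ++ [] := by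
        rw [e1, List.append_nil]
      exact List.append_cancel_left this
    have d2 := List.append_cancel_left e2
    rw [d1] at d2
    exact absurd d2 (by simp)
  | @cons p1 p2 u' v' hL hS ih =>
    rintro i0 j0 q i' j' t hi hj hq ⟨e1, e2⟩
    have hq1 : 1 ≤ q := by
      have := hI.nf i' j' t
      omega
    have hqN : q ≤ C.N := hq ▸ run_le C hC x y i' j' t
    have ok1 : OK C p1 := by
      rw [← e1, ← List.append_assoc] at okx
      exact hpre _ _ (h2 C _ _ okx)
    have ok2 : OK C p2 := by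
      rw [← e2, ← List.append_assoc] at oky
      exact hpre _ _ (h2 C _ _ oky)
    rcases h4 C hC p1 p2 ok1 ok2 hL with ⟨x0, hx0, rfl, rfl⟩ | ⟨y0, hy0, rfl, rfl⟩ |
      ⟨q1, x0, y0, q', a1, a2, a3, a4, a5, a6, rfl, rfl⟩ |
      ⟨q1, x0, y0, z, z', a1, a2, a3, a4, a5, rfl, rfl⟩
    · have e3 : blks C x i0 ++ (rn (q - 1) ++
          (rn ((x0 + 1) * (C.N + 1) - 1) ++ true :: (false :: u'))) = blks C x i ++ rn 0 := by
        rw [show rn 0 = [] from rfl, List.append_nil, ← e1]
        simp [blk]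
      obtain ⟨b1, z1, b2, b3⟩ := h5 C hC x i i0 q _ 0 _ hq1 hqN e3
      obtain ⟨-, b4⟩ := arith C.N x0 (x i0) 1 q le_rfl hC.hN hq1 hqN b1
      obtain rfl : u' = z1 := by simpa using b2
      subst b4
      refine ih (i0 + 1) j0 1 (i0 + 1) j0 0 (by omega) (by omega) rfl ⟨?_, ?_⟩
      · simpa [rn] using b3
      · simpa using e2
    · have e3 : blks C y j0 ++ (rn (q - 1) ++
          (rn ((y0 + 1) * (C.N + 1) - 1) ++ true :: (false :: v'))) = blks C y j ++ rn 1 := by
        rw [show rn 1 = [false] from rfl, ← e2]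
        simp [blk]
      obtain ⟨b1, z1, b2, b3⟩ := h5 C hC y j j0 q _ 1 _ hq1 hqN e3
      obtain ⟨-, b4⟩ := arith C.N y0 (y j0) 1 q le_rfl hC.hN hq1 hqN b1
      obtain rfl : v' = z1 := by simpa using b2
      subst b4
      refine ih i0 (j0 + 1) 1 i0 (j0 + 1) 0 (by omega) (by omega) rfl ⟨?_, ?_⟩
      · simpa using e1
      · simpa [rn] using b3
    · have e3 : blks C x i0 ++ (rn (q - 1) ++
          (rn ((x0 + 1) * (C.N + 1) - q1) ++ true :: (rn q' ++ u'))) = blks C x i ++ rn 0 := by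
        rw [show rn 0 = [] from rfl, List.append_nil, ← e1]
        simp
      have e4 : blks C y j0 ++ (rn (q - 1) ++
          (rn ((y0 + 1) * (C.N + 1) - q1) ++ true :: (rn q' ++ v'))) = blks C y j ++ rn 1 := by
        rw [show rn 1 = [false] from rfl, ← e2]
        simp
      obtain ⟨b1, z1, b2, b3⟩ := h5 C hC x i i0 q _ 0 _ hq1 hqN e3
      obtain ⟨d1, z2, d2, d3⟩ := h5 C hC y j j0 q _ 1 _ hq1 hqN e4
      obtain ⟨b4, b5⟩ := arith C.N x0 (x i0) q1 q a1 a2 hq1 hqN b1
      obtain ⟨d4, -⟩ := arith C.N y0 (y j0) q1 q a1 a2 hq1 hqN d1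
      rw [rn_pos q' a5, List.cons_append] at b2 d2
      obtain rfl : rn (q' - 1) ++ u' = z1 := by simpa using b2
      obtain rfl : rn (q' - 1) ++ v' = z2 := by simpa using d2
      rw [show rn 0 = [] from rfl, List.append_nil] at b3
      rw [show rn 1 = [false] from rfl] at d3
      rcases a6 with a6 | a6
      · exact ih (i0 + 1) (j0 + 1) q' (i0 + 1) (j0 + 1) 0 (by omega) (by omega)
          (by rw [a6]; rfl) ⟨b3, d3⟩
      · refine ih (i0 + 1) (j0 + 1) q' i' j' (t + 1) (by omega) (by omega) ?_ ⟨b3, d3⟩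
        rw [run, if_neg (hI.nf i' j' t), hq, hi, hj, a6, b4, d4, b5]
    · have e3 : blks C x i0 ++ (rn (q - 1) ++
          (rn ((x0 + 1) * (C.N + 1) - q1) ++ true :: (z ++ u'))) = blks C x i ++ rn 0 := by
        rw [show rn 0 = [] from rfl, List.append_nil, ← e1]
        simp
      have e4 : blks C y j0 ++ (rn (q - 1) ++
          (rn ((y0 + 1) * (C.N + 1) - q1) ++ true :: (z' ++ v'))) = blks C y j ++ rn 1 := by
        rw [show rn 1 = [false] from rfl, ← e2]
        simp
      obtain ⟨b1, z1, b2, b3⟩ := h5 C hC x i i0 q _ 0 _ hq1 hqN e3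
      obtain ⟨d1, z2, d2, d3⟩ := h5 C hC y j j0 q _ 1 _ hq1 hqN e4
      obtain ⟨b4, b5⟩ := arith C.N x0 (x i0) q1 q a1 a2 hq1 hqN b1
      obtain ⟨d4, -⟩ := arith C.N y0 (y j0) q1 q a1 a2 hq1 hqN d1
      apply hI.nf i' j' (t + 1)
      rw [run, if_neg (hI.nf i' j' t), hq, hi, hj, ← b4, ← d4, ← b5]
      exact a5

theorem b1 (h1 : S_SC) (h2 : S_OK) (h3 : S_OKU) (h4 : S_INV) (h5 : S_CUT) : S_B1 := by
  intro C hC x y hI i j h
  refine main h1 h2 h3 h4 h5 C hC x y hI i j _ _ h 0 0 1 0 0 0 rfl rfl rfl ⟨?_, ?_⟩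
  · simp [blks, rn]
  · simp [blks, rn]

end Pool.Agent.H903.STB1
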