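import Pool.Agent.H724.ST.Stm

set_option autoImplicit false

/-!
# Star problem: eventually periodic immortal pairs (S_B2)
-/

namespace Pool.Agent.H903.STB2

open Pool.Agent.H724.ST

/-- eventually periodic version of a tape -/
def per (x : ℕ → ℕ) (n p : ℕ) : ℕ → ℕ := fun i => x (if i < n then i else n + (i - n) % p)

theorem blks_add (C : Chk) (x : ℕ → ℕ) (m n : ℕ) :
    blks C x (m + n) = blks C x m ++ blks C (fun i => x (m + i)) n := by
  induction n with
  | zero => simp [blks]
  | succ n ih => rw [← Nat.add_assoc, blks, ih, blks, List.append_assoc]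

theorem blks_congr (C : Chk) (x y : ℕ → ℕ) (n : ℕ) (h : ∀ i, i < n → x i = y i) :
    blks C x n = blks C y n := by
  induction n with
  | zero => rfl
  | succ n ih => rw [blks, blks, ih fun i hi => h i (by omega), h n (by omega)]

theorem per_lt (x : ℕ → ℕ) (n p i : ℕ) (h : i < n + p) : per x n p i = x i := by
  unfold per
  split_ifs with h1
  · rfl
  · rw [Nat.mod_eq_of_lt (by omega)]
    congr 1
    omega

theorem per_add (x : ℕ → ℕ) (n p k i : ℕ) (h : i < p) : per x n p (n + k * p + i) = x (n + i) := by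
  unfold per
  rw [if_neg (by omega)]
  congr 2
  rw [show n + k * p + i - n = i + k * p by omega, Nat.add_mul_mod_self_right,
    Nat.mod_eq_of_lt h]

theorem periodic {T : Type} (C : Chk) (x : ℕ → ℕ) (th : List Bool → T)
    (hfin : (Set.range th).Finite) (hth : ∀ u u' w, th u = th u' → th (u ++ w) = th (u' ++ w)) :
    ∃ n p : ℕ, 1 ≤ n ∧ 0 < p ∧ ∀ k, th (blks C (per x n p) (n + k * p)) = th (blks C x n) := by
  have := hfin.to_subtype
  obtain ⟨a, b, hab, he⟩ := Finite.exists_ne_map_eq_of_infinite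
    (fun i : ℕ => (⟨th (blks C x (i + 1)), ⟨_, rfl⟩⟩ : Set.range th))
  have he' : th (blks C x (a + 1)) = th (blks C x (b + 1)) := congrArg Subtype.val he
  obtain ⟨a, b, hlt, he'⟩ : ∃ a b : ℕ, a < b ∧ th (blks C x (a + 1)) = th (blks C x (b + 1)) := by
    rcases lt_or_gt_of_ne hab with h | h
    · exact ⟨a, b, h, he'⟩
    · exact ⟨b, a, h, he'.symm⟩
  refine ⟨a + 1, b - a, by omega, by omega, fun k => ?_⟩
  induction k with
  | zero =>
    rw [Nat.zero_mul, Nat.add_zero]
    rw [blks_congr C (per x (a + 1) (b - a)) x (a + 1) fun i hi => per_lt _ _ _ _ (by omega)]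
  | succ k ih =>
    rw [Nat.succ_mul, ← Nat.add_assoc, blks_add, hth _ _ _ ih,
      blks_congr C (fun i => per x (a + 1) (b - a) (a + 1 + k * (b - a) + i))
        (fun i => x (a + 1 + i)) (b - a) fun i hi => per_add _ _ _ _ _ hi, ← blks_add, he']
    congr 2
    omega

theorem append_suffix (C : Chk) (x : ℕ → ℕ) (m n : ℕ) (h : m ≤ n) :
    ∃ w, blks C x n = blks C x m ++ w := by
  obtain ⟨k, rfl⟩ := Nat.exists_eq_add_of_le h
  exact ⟨_, blks_add C x m k⟩

theorem exists_large (n p m : ℕ) (hp : 0 < p) : ∃ k, m ≤ n + k * p :=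
  ⟨m, by have := Nat.le_mul_of_pos_right m hp; omega⟩

theorem single {L : List Bool → List Bool → Prop} {u v : List Bool} (h : L u v) : StP L u v := by
  have := StP.cons h StP.nil
  simpa using this

theorem cons_per (C : Chk) (x : ℕ → ℕ) (hx : ∀ m, Cons C x m) (n p : ℕ) (hn : 1 ≤ n)
    (hp : 0 < p) (h : ∀ i, 1 ≤ i → C.l2 (per x n p i) (per x n p (i + 1)) = true) (m : ℕ) :
    Cons C (per x n p) m := by
  constructor
  · intro i _
    exact (hx ((if i < n then i else n + (i - n) % p) + 1)).1 _ (Nat.lt_succ_self _)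
  · intro i _
    rcases Nat.eq_zero_or_pos i with rfl | hi
    · rw [per_lt x n p 0 (by omega), per_lt x n p (0 + 1) (by omega)]
      exact (hx 2).2 0 (by omega)
    · exact h i hi

theorem b2 (h1 : S_SC) (h2 : S_PC) (h3 : S_OKC) (h4 : S_VIO) (h5 : S_B1) : S_B2 := by
  intro C hC hM x y hI
  obtain ⟨-, -, -, -, -, -, -, hpre⟩ := h1 C
  obtain ⟨-, hno, -, -⟩ := h2 C hC
  obtain ⟨n1, p1, hn1, hp1, e1⟩ := periodic C x
    (fun u => {r : List Bool × List Bool | StP (Lp C) (u ++ r.1) r.2}) hM.1 (by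
      intro u u' w h
      ext ⟨r, s⟩
      have := Set.ext_iff.1 h (w ++ r, s)
      simpa only [Set.mem_setOf_eq, List.append_assoc] using this)
  obtain ⟨n2, p2, hn2, hp2, e2⟩ := periodic C y
    (fun v => {r : List Bool × List Bool | StP (Lp C) r.1 (v ++ r.2)}) hM.2 (by
      intro u u' w h
      ext ⟨r, s⟩
      have := Set.ext_iff.1 h (r, w ++ s)
      simpa only [Set.mem_setOf_eq, List.append_assoc] using this)
  have star : ∀ k l, ¬ StP (Lp C) (blks C (per x n1 p1) (n1 + k * p1))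
      (blks C (per y n2 p2) (n2 + l * p2) ++ [false]) := by
    intro k l h
    have f1 := Set.ext_iff.1 (e1 k) ([], blks C (per y n2 p2) (n2 + l * p2) ++ [false])
    have f2 := Set.ext_iff.1 (e2 l) (blks C x n1, [false])
    simp only [Set.mem_setOf_eq, List.append_nil] at f1 f2
    exact h5 C hC x y hI n1 n2 (f2.1 (f1.1 h))
  have cx : ∀ m, Cons C (per x n1 p1) m := by
    refine cons_per C x hI.cx n1 p1 hn1 hp1 fun i hi => ?_
    by_contra hcon
    obtain ⟨k, hk⟩ := exists_large n1 p1 (i + 2) hp1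
    obtain ⟨w, hw⟩ := append_suffix C (per x n1 p1) _ _ hk
    have hbad : ¬ OK C (blks C (per x n1 p1) (n1 + k * p1)) := by
      intro hok
      rw [hw] at hok
      exact hcon ((h3 C hC _ _ (hpre _ _ hok) i hi).2 (by omega))
    exact star k 0 (single (hno _ _ (Or.inl hbad)))
  have cy : ∀ m, Cons C (per y n2 p2) m := by
    refine cons_per C y hI.cy n2 p2 hn2 hp2 fun i hi => ?_
    by_contra hcon
    obtain ⟨k, hk⟩ := exists_large n2 p2 (i + 2) hp2
    obtain ⟨w, hw⟩ := append_suffix C (per y n2 p2) _ _ hk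
    have hbad : ¬ OK C (blks C (per y n2 p2) (n2 + k * p2) ++ [false]) := by
      intro hok
      rw [hw, List.append_assoc] at hok
      exact hcon ((h3 C hC _ _ (hpre _ _ hok) i hi).2 (by omega))
    exact star 0 k (single (hno _ _ (Or.inr hbad)))
  refine ⟨n1, p1, n2, p2, hp1, hp2, cx, cy, fun i j t ht => ?_⟩
  obtain ⟨k, hk⟩ := exists_large n1 p1 (i + t) hp1
  obtain ⟨l, hl⟩ := exists_large n2 p2 (j + t) hp2
  obtain ⟨w, hw⟩ := append_suffix C (per x n1 p1) _ _ hk
  obtain ⟨w', hw'⟩ := append_suffix C (per y n2 p2) _ _ hl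
  have := h4 C hC (per x n1 p1) (per y n2 p2) i j t (cx _) (cy _) ht w (w' ++ [false])
  rw [← List.append_assoc, ← hw, ← hw'] at this
  exact star k l this

end Pool.Agent.H903.STB2
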