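import Pool.Agent.H724.ST.Stm

/-! Project ST (helper724), part CP: compactness. -/

set_option autoImplicit false

namespace Pool.Agent.H596.STcp

open Pool.Agent.H724.ST Filter

theorem ult_val (U : Ultrafilter ℕ) (f : ℕ → ℕ) (p : ℕ) (h : ∀ᶠ T in (U : Filter ℕ), f T < p) :
    ∃ a, ∀ᶠ T in (U : Filter ℕ), f T = a := by
  induction p with
  | zero =>
    obtain ⟨T, hT⟩ := h.exists
    omega
  | succ p ih =>
    have h1 : ∀ᶠ T in (U : Filter ℕ), f T < p ∨ f T = p := h.mono fun T hT => by omega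
    rcases Ultrafilter.eventually_or.1 h1 with h1 | h1
    · exact ih h1
    · exact ⟨p, h1⟩

theorem run_congr (C : Chk) {x x' y y' : ℕ → ℕ} {m : ℕ} (hx : ∀ k, k < m → x k = x' k)
    (hy : ∀ k, k < m → y k = y' k) (i j : ℕ) : ∀ t, i + t ≤ m → j + t ≤ m → run C x y i j t = run C x' y' i j t := by
  intro t
  induction t with
  | zero => intro _ _; rfl
  | succ t ih =>
    intro h1 h2
    have e := ih (by omega) (by omega)
    show (if run C x y i j t = 0 then 0 else C.dl (run C x y i j t) (x (i + t)) (y (j + t))) =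
      if run C x' y' i j t = 0 then 0 else C.dl (run C x' y' i j t) (x' (i + t)) (y' (j + t))
    rw [e, hx (i + t) (by omega), hy (j + t) (by omega)]

theorem cons_congr (C : Chk) {x x' : ℕ → ℕ} {m T : ℕ} (hx : ∀ k, k < m → x' k = x k) (hT : m ≤ T)
    (h : Cons C x' T) : Cons C x m := by
  refine ⟨fun i hi => ?_, fun i hi => ?_⟩
  · rw [← hx i hi]
    exact h.1 i (by omega)
  · rw [← hx i (by omega), ← hx (i + 1) hi]
    exact h.2 i (by omega)

theorem cp : S_CP := by
  intro C hC hno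
  by_contra hM
  push Not at hM
  have h1 : ∀ T, ∃ x y : ℕ → ℕ, Cons C x T ∧ Cons C y T ∧ ∀ i j t, i + t ≤ T → j + t ≤ T → run C x y i j t ≠ 0 := by
    intro T
    have h := hM T
    unfold Mort at h
    push Not at h
    exact h
  choose X Y hX hY hXY using h1
  let U : Ultrafilter ℕ := hyperfilter ℕ
  have hge : ∀ m, ∀ᶠ T in (U : Filter ℕ), m ≤ T := by
    intro m
    have h2 : ∀ᶠ T in (cofinite : Filter ℕ), m ≤ T := by
      rw [Nat.cofinite_eq_atTop]
      exact eventually_ge_atTop m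
    exact (hyperfilter_le_cofinite (α := ℕ)) h2
  have hx : ∀ i, ∃ a, ∀ᶠ T in (U : Filter ℕ), X T i = a := fun i =>
    ult_val U (fun T => X T i) C.p ((hge (i + 1)).mono fun T hT => ((hX T).1 i (by omega)).1)
  have hy : ∀ i, ∃ a, ∀ᶠ T in (U : Filter ℕ), Y T i = a := fun i =>
    ult_val U (fun T => Y T i) C.p ((hge (i + 1)).mono fun T hT => ((hY T).1 i (by omega)).1)
  choose x hx using hx
  choose y hy using hy
  have key : ∀ m, ∃ T, m ≤ T ∧ (∀ k, k < m → X T k = x k) ∧ ∀ k, k < m → Y T k = y k := by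
    intro m
    have e1 : ∀ᶠ T in (U : Filter ℕ), ∀ k ∈ Finset.range m, X T k = x k :=
      (Filter.eventually_all_finset (Finset.range m)).2 fun k _ => hx k
    have e2 : ∀ᶠ T in (U : Filter ℕ), ∀ k ∈ Finset.range m, Y T k = y k :=
      (Filter.eventually_all_finset (Finset.range m)).2 fun k _ => hy k
    obtain ⟨T, h1, h2, h3⟩ := ((hge m).and (e1.and e2)).exists
    exact ⟨T, h1, fun k hk => h2 k (Finset.mem_range.2 hk), fun k hk => h3 k (Finset.mem_range.2 hk)⟩
  apply hno
  refine ⟨x, y, fun m => ?_, fun m => ?_, fun i j t => ?_⟩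
  · obtain ⟨T, h1, h2, -⟩ := key m
    exact cons_congr C h2 h1 (hX T)
  · obtain ⟨T, h1, -, h3⟩ := key m
    exact cons_congr C h3 h1 (hY T)
  · obtain ⟨T, h1, h2, h3⟩ := key (i + t + (j + t))
    rw [← run_congr C h2 h3 i j t (by omega) (by omega)]
    exact hXY T i j t (by omega) (by omega)

end Pool.Agent.H596.STcp
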