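import Pool.Agent.H724.ST.Stm

/-!
# Project ST (helper724), jobs ST-GD and ST-SH

`gd`: inner runs of `OK` words are good. `sh`: finitely many `OK` words with a bounded number of
letters `true`.
-/

set_option autoImplicit false

namespace Pool.Agent.H549.ST

open Pool.Agent.H724.ST

/-- the state `3` is absorbing -/
theorem foldl_dead (C : Chk) (u : List Bool) : ∀ s : ℕ × ℕ × ℕ × ℕ, s.1 = 3 →
    (u.foldl (scs C) s).1 = 3 := by
  induction u with
  | nil => intro s hs; exact hs
  | cons b u ih =>
    intro s hs
    rw [List.foldl_cons]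
    apply ih
    simp [scs, hs]

/-- reading a run from a state `(0, k, 0, 0)` -/
theorem foldl_zero (C : Chk) (n : ℕ) : ∀ k : ℕ,
    (rn n).foldl (scs C) (0, k, 0, 0) = (0, k + n, 0, 0) ∨
      ((rn n).foldl (scs C) (0, k, 0, 0)).1 = 3 := by
  induction n with
  | zero => intro k; left; rfl
  | succ n ih =>
    intro k
    have h1 : rn (n + 1) = false :: rn n := rfl
    rw [h1, List.foldl_cons]
    by_cases hk : k < C.E
    · have h2 : scs C (0, k, 0, 0) false = (0, k + 1, 0, 0) := by simp [scs, hk]
      rw [h2]
      rcases ih (k + 1) with h | h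
      · left
        rw [h]
        congr 2
        omega
      · right; exact h
    · have h2 : scs C (0, k, 0, 0) false = (3, 0, 0, 0) := by simp [scs, hk]
      rw [h2]
      right
      exact foldl_dead C _ _ rfl

/-- reading a run from a state `(1, al, 0, k)` -/
theorem foldl_one (C : Chk) (al n : ℕ) : ∀ k : ℕ,
    (rn n).foldl (scs C) (1, al, 0, k) = (1, al, 0, k + n) ∨
      ((rn n).foldl (scs C) (1, al, 0, k)).1 = 3 := by
  induction n with
  | zero => intro k; left; rfl
  | succ n ih =>
    intro k
    have h1 : rn (n + 1) = false :: rn n := rfl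
    rw [h1, List.foldl_cons]
    by_cases hk : k < C.E
    · have h2 : scs C (1, al, 0, k) false = (1, al, 0, k + 1) := by simp [scs, hk]
      rw [h2]
      rcases ih (k + 1) with h | h
      · left
        rw [h]
        congr 3
        omega
      · right; exact h
    · have h2 : scs C (1, al, 0, k) false = (3, 0, 0, 0) := by simp [scs, hk]
      rw [h2]
      right
      exact foldl_dead C _ _ rfl

/-- **ST-GD.** -/
theorem gd : Pool.Agent.H724.ST.S_GD := by
  intro C al e z h
  by_contra hg
  apply h
  unfold sc
  rw [List.foldl_append, List.foldl_cons, List.foldl_append, List.foldl_cons]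
  rcases foldl_zero C al 0 with h0 | h0
  · rw [h0, zero_add]
    have h1 : scs C (0, al, 0, 0) true = (1, al, 0, 0) := by simp [scs]
    rw [h1]
    rcases foldl_one C al e 0 with h2 | h2
    · rw [h2, zero_add]
      have h3 : scs C (1, al, 0, e) true = (3, 0, 0, 0) := by simp [scs, hg]
      rw [h3]
      exact foldl_dead C _ _ rfl
    · exact foldl_dead C (true :: z) _ h2
  · exact foldl_dead C (true :: z) _
      (foldl_dead C (rn e) _ (foldl_dead C [true] _ h0))

/-- the length of the last run -/
def lastRun (s : ℕ × ℕ × ℕ × ℕ) : ℕ := if s.1 = 0 then s.2.1 else s.2.2.2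

/-- One step of the scanner and the length of the last run. -/
theorem step_run (C : Chk) (s : ℕ × ℕ × ℕ × ℕ) (b : Bool) (h : (scs C s b).1 ≠ 3) :
    s.1 ≠ 3 ∧ (b = true → lastRun (scs C s b) = 0) ∧
      (b = false → lastRun s < C.E ∧ lastRun (scs C s b) = lastRun s + 1) := by
  obtain ⟨t, al, l, g⟩ := s
  have ht : t = 0 ∨ t = 1 ∨ t = 2 ∨ (t ≠ 0 ∧ t ≠ 1 ∧ t ≠ 2) := by omega
  rcases ht with rfl | rfl | rfl | ⟨h0, h1, h2⟩
  · cases b with
    | true => simp [scs, lastRun]
    | false =>
      by_cases hk : al < C.E
      · simp [scs, lastRun, hk]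
      · simp [scs, hk] at h
  · cases b with
    | true =>
      by_cases hk : good C g = true
      · simp [scs, lastRun, hk]
      · simp [scs, hk] at h
    | false =>
      by_cases hk : g < C.E
      · simp [scs, lastRun, hk]
      · simp [scs, hk] at h
  · cases b with
    | true =>
      by_cases hk : good C g = true ∧
          C.l2 (l / (C.N + 1) - 1) (g / (C.N + 1) - 1) = true
      · simp [scs, lastRun, hk]
      · exfalso
        apply h
        simp only [scs, OfNat.ofNat_ne_zero, OfNat.ofNat_ne_one, if_false, if_true, if_neg hk]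
    | false =>
      by_cases hk : g < C.E
      · simp [scs, lastRun, hk]
      · simp [scs, hk] at h
  · exfalso
    apply h
    simp [scs, h0, h1, h2]

/-- The length of an `OK` word. -/
theorem length_le (C : Chk) (u : List Bool) : (sc C u).1 ≠ 3 →
    lastRun (sc C u) ≤ C.E ∧ u.length ≤ u.count true * (C.E + 1) + lastRun (sc C u) := by
  induction u using List.reverseRecOn with
  | nil => intro _; simp [sc, lastRun]
  | append_singleton u b ih =>
    intro h
    have hs : sc C (u ++ [b]) = scs C (sc C u) b := by
      unfold sc
      rw [List.foldl_append, List.foldl_cons, List.foldl_nil]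
    rw [hs] at h ⊢
    obtain ⟨h1, h2, h3⟩ := step_run C (sc C u) b h
    obtain ⟨h4, h5⟩ := ih h1
    cases b with
    | true =>
      rw [h2 rfl, List.count_append, List.length_append, List.length_singleton]
      have h6 : List.count true [true] = 1 := rfl
      rw [h6]
      refine ⟨Nat.zero_le _, ?_⟩
      have h7 : (List.count true u + 1) * (C.E + 1) =
        List.count true u * (C.E + 1) + (C.E + 1) := by ring
      rw [h7]
      omega
    | false =>
      obtain ⟨h6, h7⟩ := h3 rfl
      rw [h7, List.count_append, List.length_append, List.length_singleton]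
      have h8 : List.count true [false] = 0 := rfl
      rw [h8, add_zero]
      omega

/-- **ST-SH.** -/
theorem sh : Pool.Agent.H724.ST.S_SH := by
  intro C T
  apply (List.finite_length_le Bool (T * (C.E + 1) + C.E)).subset
  rintro u ⟨h1, h2⟩
  obtain ⟨h3, h4⟩ := length_le C u h1
  have h5 : u.count true * (C.E + 1) ≤ T * (C.E + 1) := Nat.mul_le_mul_right _ h2.le
  change u.length ≤ T * (C.E + 1) + C.E
  omega

end Pool.Agent.H549.ST
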