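import Pool.Agent.H724.ST.Mon

/-! Project ST (helper724), subtask ST-MON1: the transition monoid is computable. -/

set_option autoImplicit false

namespace Pool.Agent.H796.STM

open Pool.Agent.H724.ST

section
variable {α : Type} [Primcodable α]

theorem pow_pr : Primrec₂ (fun a b : ℕ => a ^ b) := by
  have h : Nat.Primrec (Nat.unpaired fun a b : ℕ => a ^ b) := Nat.Primrec.pow
  exact Primrec₂.unpaired'.1 h

theorem ppow {f g : α → ℕ} (hf : Primrec f) (hg : Primrec g) : Primrec fun a => f a ^ g a :=
  pow_pr.comp hf hg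

theorem dgN_pr {f g h : α → ℕ} (hf : Primrec f) (hg : Primrec g) (hh : Primrec h) :
    Primrec fun a => dgN (f a) (g a) (h a) := by
  unfold dgN
  exact Primrec.nat_mod.comp (Primrec.nat_div.comp hg (ppow hf hh)) hf

theorem cdN_pr {f : α → ℕ} {g : α → List ℕ} (hf : Primrec f) (hg : Primrec g) :
    Primrec fun a => cdN (f a) (g a) := by
  unfold cdN
  refine Primrec.list_foldr (h := fun (a : α) (x : ℕ × ℕ) => x.1 + f a * x.2) hg
    (Primrec.const 0) ?_
  show Primrec₂ _
  have h1 : Primrec (fun p : α × (ℕ × ℕ) => p.2.1 + f p.1 * p.2.2) :=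
    Primrec.nat_add.comp (Primrec.fst.comp Primrec.snd)
      (Primrec.nat_mul.comp (hf.comp Primrec.fst) (Primrec.snd.comp Primrec.snd))
  exact h1.to₂

theorem mem_pr : PrimrecRel (fun (L : List ℕ) (b : ℕ) => b ∈ L) := by
  have h : PrimrecRel (fun (a b : ℕ) => a = b) := Primrec.eq
  have h2 := PrimrecRel.exists_mem_list h
  refine PrimrecRel.of_eq h2 ?_
  intro L b
  constructor
  · rintro ⟨a, ha, rfl⟩; exact ha
  · intro hb; exact ⟨b, hb, rfl⟩

end

/-- The length of the first component. -/
theorem len_pr : Primrec (fun c : List (List ℕ) × List ℕ => c.1.length) :=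
  Primrec.list_length.comp Primrec.fst

theorem NN_pr : Primrec (fun c : List (List ℕ) × List ℕ => c.1.length ^ c.1.length) :=
  ppow len_pr len_pr

theorem part1 : Primrec (fun c : List (List ℕ) × List ℕ =>
    (List.range (c.1.length ^ c.1.length)).map fun s =>
      (List.range (c.1.length ^ c.1.length)).map fun t =>
        cdN c.1.length ((List.range c.1.length).map fun j =>
          dgN c.1.length t (dgN c.1.length s j))) := by
  refine Primrec.list_map (Primrec.list_range.comp NN_pr) ?_
  unfold Primrec₂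
  have hN : Primrec (fun p : (List (List ℕ) × List ℕ) × ℕ => p.1.1.length) :=
    len_pr.comp Primrec.fst
  refine Primrec.list_map (f := fun p : (List (List ℕ) × List ℕ) × ℕ =>
      List.range (p.1.1.length ^ p.1.1.length))
    (g := fun (p : (List (List ℕ) × List ℕ) × ℕ) (t : ℕ) =>
      cdN p.1.1.length ((List.range p.1.1.length).map fun j =>
          dgN p.1.1.length t (dgN p.1.1.length p.2 j)))
    (Primrec.list_range.comp (NN_pr.comp Primrec.fst)) ?_
  unfold Primrec₂
  have hN2 : Primrec (fun p : ((List (List ℕ) × List ℕ) × ℕ) × ℕ => p.1.1.1.length) :=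
    hN.comp Primrec.fst
  refine cdN_pr (f := fun p : ((List (List ℕ) × List ℕ) × ℕ) × ℕ => p.1.1.1.length)
    (g := fun p : ((List (List ℕ) × List ℕ) × ℕ) × ℕ =>
      (List.range p.1.1.1.length).map fun j =>
          dgN p.1.1.1.length p.2 (dgN p.1.1.1.length p.1.2 j)) hN2 ?_
  refine Primrec.list_map (f := fun p : ((List (List ℕ) × List ℕ) × ℕ) × ℕ =>
      List.range p.1.1.1.length)
    (g := fun (p : ((List (List ℕ) × List ℕ) × ℕ) × ℕ) (j : ℕ) =>
      dgN p.1.1.1.length p.2 (dgN p.1.1.1.length p.1.2 j))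
    (Primrec.list_range.comp hN2) ?_
  unfold Primrec₂
  have hN3 : Primrec (fun p : (((List (List ℕ) × List ℕ) × ℕ) × ℕ) × ℕ => p.1.1.1.1.length) :=
    hN2.comp Primrec.fst
  exact dgN_pr hN3 (Primrec.snd.comp Primrec.fst)
    (dgN_pr hN3 (Primrec.snd.comp (Primrec.fst.comp Primrec.fst)) Primrec.snd)

theorem part2 : Primrec (fun c : List (List ℕ) × List ℕ =>
    cdN c.1.length (List.range c.1.length)) :=
  cdN_pr len_pr (Primrec.list_range.comp len_pr)

theorem part3 (k : ℕ) : Primrec (fun c : List (List ℕ) × List ℕ =>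
    (List.range k).map fun a =>
      cdN c.1.length ((List.range c.1.length).map fun q => (c.1.getD q []).getD a 0)) := by
  refine Primrec.list_map (f := fun _ : List (List ℕ) × List ℕ => List.range k)
    (g := fun (c : List (List ℕ) × List ℕ) (a : ℕ) =>
      cdN c.1.length ((List.range c.1.length).map fun q => (c.1.getD q []).getD a 0))
    (Primrec.const _) ?_
  unfold Primrec₂
  have hN : Primrec (fun p : (List (List ℕ) × List ℕ) × ℕ => p.1.1.length) :=
    len_pr.comp Primrec.fst
  refine cdN_pr hN ?_
  refine Primrec.list_map (f := fun p : (List (List ℕ) × List ℕ) × ℕ => List.range p.1.1.length)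
    (g := fun (p : (List (List ℕ) × List ℕ) × ℕ) (q : ℕ) => (p.1.1.getD q []).getD p.2 0)
    (Primrec.list_range.comp hN) ?_
  unfold Primrec₂
  have h1 : Primrec (fun p : ((List (List ℕ) × List ℕ) × ℕ) × ℕ => p.1.1.1.getD p.2 []) :=
    (Primrec.list_getD ([] : List ℕ)).comp
      (Primrec.fst.comp (Primrec.fst.comp Primrec.fst)) Primrec.snd
  exact (Primrec.list_getD (0 : ℕ)).comp h1 (Primrec.snd.comp Primrec.fst)

/-- A filter as a fold. -/
theorem filter_fold (p : ℕ → Bool) (l : List ℕ) :
    l.filter p = l.foldr (fun x acc => if p x = true then x :: acc else acc) [] := by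
  induction l with
  | nil => rfl
  | cons a l ih =>
    rw [List.foldr_cons, ← ih]
    by_cases h : p a = true
    · simp [h]
    · simp [h]

theorem part4 : Primrec (fun c : List (List ℕ) × List ℕ =>
    (List.range (c.1.length ^ c.1.length)).filter
      fun s => decide (dgN c.1.length s 0 ∈ c.2)) := by
  have hfold : (fun c : List (List ℕ) × List ℕ =>
      (List.range (c.1.length ^ c.1.length)).filter
        fun s => decide (dgN c.1.length s 0 ∈ c.2)) =
      fun c => (List.range (c.1.length ^ c.1.length)).foldr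
        (fun x acc => if dgN c.1.length x 0 ∈ c.2 then x :: acc else acc) [] := by
    funext c
    rw [filter_fold]
    simp only [decide_eq_true_eq]
  rw [hfold]
  refine Primrec.list_foldr (f := fun c : List (List ℕ) × List ℕ =>
      List.range (c.1.length ^ c.1.length)) (g := fun _ => ([] : List ℕ))
    (h := fun (c : List (List ℕ) × List ℕ) (x : ℕ × List ℕ) =>
      if dgN c.1.length x.1 0 ∈ c.2 then x.1 :: x.2 else x.2)
    (Primrec.list_range.comp NN_pr) (Primrec.const _) ?_
  unfold Primrec₂
  have hd : Primrec (fun p : (List (List ℕ) × List ℕ) × (ℕ × List ℕ) =>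
      dgN p.1.1.length p.2.1 0) :=
    dgN_pr (len_pr.comp Primrec.fst) (Primrec.fst.comp Primrec.snd) (Primrec.const 0)
  have hm : PrimrecPred (fun p : (List (List ℕ) × List ℕ) × (ℕ × List ℕ) =>
      dgN p.1.1.length p.2.1 0 ∈ p.1.2) :=
    PrimrecRel.comp mem_pr (Primrec.snd.comp Primrec.fst) hd
  exact Primrec.ite hm
    (Primrec.list_cons.comp (Primrec.fst.comp Primrec.snd) (Primrec.snd.comp Primrec.snd))
    (Primrec.snd.comp Primrec.snd)

/-- **ST-MON1.** The transition monoid is computable. -/
theorem mon1 : S_MON1 := by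
  intro k
  refine Primrec.to_comp ?_
  exact Primrec.pair part1 (Primrec.pair part2 (Primrec.pair (part3 k) part4))

end Pool.Agent.H796.STM
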