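import Pool.Agent.H724.ST.Mon

set_option autoImplicit false

/-! # The transition monoid presents the same set (ST-MON2) -/

namespace Pool.Agent.H30.STMON

open Pool.Agent.H724.ST

theorem dg_zero (N s : ℕ) : dgN N s 0 = s % N := by
  unfold dgN
  rw [pow_zero, Nat.div_one]

theorem dg_succ (N s j : ℕ) : dgN N s (j + 1) = dgN N (s / N) j := by
  unfold dgN
  rw [pow_succ', Nat.div_div_eq_div_mul]

theorem dg_lt {N : ℕ} (hN : 0 < N) (s j : ℕ) : dgN N s j < N := Nat.mod_lt _ hN

theorem cd_cons (N v : ℕ) (l : List ℕ) : cdN N (v :: l) = v + N * cdN N l := rfl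

theorem cd_lt (N : ℕ) (l : List ℕ) (h : ∀ x ∈ l, x < N) : cdN N l < N ^ l.length := by
  induction l with
  | nil => exact Nat.lt_of_lt_of_eq Nat.zero_lt_one (pow_zero N).symm
  | cons v l ih =>
    have h1 := ih fun x hx => h x (List.mem_cons_of_mem _ hx)
    have h2 := h v List.mem_cons_self
    rw [cd_cons, List.length_cons, pow_succ']
    calc v + N * cdN N l < N + N * cdN N l := by omega
      _ = N * (cdN N l + 1) := by ring
      _ ≤ N * N ^ l.length := Nat.mul_le_mul_left _ h1

theorem dg_cd (N : ℕ) (l : List ℕ) (h : ∀ x ∈ l, x < N) (j : ℕ) :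
    dgN N (cdN N l) j = l.getD j 0 := by
  induction l generalizing j with
  | nil => simp [cdN, dgN]
  | cons v l ih =>
    have h2 := h v List.mem_cons_self
    cases j with
    | zero =>
      rw [dg_zero, cd_cons, Nat.add_mul_mod_self_left, Nat.mod_eq_of_lt h2, List.getD_cons_zero]
    | succ j =>
      rw [dg_succ, cd_cons, Nat.add_mul_div_left _ _ (by omega), Nat.div_eq_of_lt h2,
        Nat.zero_add, List.getD_cons_succ]
      exact ih (fun x hx => h x (List.mem_cons_of_mem _ hx)) j

theorem cd_dg (N m s : ℕ) : cdN N ((List.range m).map (dgN N s)) = s % N ^ m := by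
  induction m generalizing s with
  | zero =>
    rw [pow_zero, Nat.mod_one]
    rfl
  | succ m ih =>
    rw [List.range_succ_eq_map, List.map_cons, cd_cons, List.map_map, dg_zero, pow_succ',
      Nat.mod_mul, ← ih (s / N)]
    have e : (dgN N s ∘ Nat.succ) = dgN N (s / N) := by
      funext j
      exact dg_succ N s j
    rw [e]

/-- The code of a function. -/
def enc (N : ℕ) (f : ℕ → ℕ) : ℕ := cdN N ((List.range N).map f)

theorem enc_lt {N : ℕ} (f : ℕ → ℕ) (h : ∀ j < N, f j < N) : enc N f < N ^ N := by
  have h1 := cd_lt N ((List.range N).map f) (by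
    intro x hx
    rw [List.mem_map] at hx
    obtain ⟨j, hj, rfl⟩ := hx
    exact h j (List.mem_range.mp hj))
  rwa [List.length_map, List.length_range] at h1

theorem getD_map_range {α : Type} (f : ℕ → α) (n i : ℕ) (d : α) (h : i < n) :
    ((List.range n).map f).getD i d = f i := by
  rw [List.getD_eq_getElem?_getD, List.getElem?_map, List.getElem?_range h]
  rfl

theorem dg_enc {N : ℕ} (f : ℕ → ℕ) (h : ∀ j < N, f j < N) (j : ℕ) (hj : j < N) :
    dgN N (enc N f) j = f j := by
  unfold enc
  rw [dg_cd N _ (by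
    intro x hx
    rw [List.mem_map] at hx
    obtain ⟨j, hj, rfl⟩ := hx
    exact h j (List.mem_range.mp hj)), getD_map_range f N j 0 hj]

theorem enc_dg {N : ℕ} (s : ℕ) (hs : s < N ^ N) : enc N (dgN N s) = s := by
  unfold enc
  rw [cd_dg, Nat.mod_eq_of_lt hs]

theorem enc_congr {N : ℕ} (f g : ℕ → ℕ) (h : ∀ j < N, f j = g j) : enc N f = enc N g := by
  unfold enc
  congr 1
  apply List.map_congr_left
  intro j hj
  exact h j (List.mem_range.mp hj)

theorem len_mon (k : ℕ) (c : List (List ℕ) × List ℕ) :
    (monC k c).1.length = c.1.length ^ c.1.length := by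
  show ((List.range (c.1.length ^ c.1.length)).map _).length = _
  rw [List.length_map, List.length_range]

theorem mul_mon (k : ℕ) (c : List (List ℕ) × List ℕ) (q r : ℕ)
    (hq : q < c.1.length ^ c.1.length) (hr : r < c.1.length ^ c.1.length) :
    mulC (monC k c) q r =
      enc c.1.length (fun j => dgN c.1.length r (dgN c.1.length q j)) := by
  show (((List.range (c.1.length ^ c.1.length)).map fun s =>
      (List.range (c.1.length ^ c.1.length)).map fun t =>
        cdN c.1.length ((List.range c.1.length).map fun j =>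
          dgN c.1.length t (dgN c.1.length s j))).getD q []).getD r 0 = _
  rw [getD_map_range _ _ _ _ hq, getD_map_range _ _ _ _ hr]
  rfl

theorem one_mon (k : ℕ) (c : List (List ℕ) × List ℕ) :
    (monC k c).2.1 = enc c.1.length (fun j => j) := by
  show cdN c.1.length (List.range c.1.length) = cdN c.1.length ((List.range c.1.length).map _)
  rw [List.map_id']

theorem gen_mon (k : ℕ) (c : List (List ℕ) × List ℕ) (a : Fin k) :
    genC (monC k c) a = enc c.1.length (fun q => next c q a) := by
  show ((List.range k).map fun a =>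
      cdN c.1.length ((List.range c.1.length).map fun q => (c.1.getD q []).getD a 0)).getD a 0 = _
  rw [getD_map_range _ _ _ _ a.2]
  rfl

theorem mul_lt (k : ℕ) (c : List (List ℕ) × List ℕ) (hN : 0 < c.1.length) (q r : ℕ)
    (hq : q < c.1.length ^ c.1.length) (hr : r < c.1.length ^ c.1.length) :
    mulC (monC k c) q r < c.1.length ^ c.1.length := by
  rw [mul_mon k c q r hq hr]
  exact enc_lt _ fun j _ => dg_lt hN _ _

theorem dg_mul (k : ℕ) (c : List (List ℕ) × List ℕ) (hN : 0 < c.1.length) (q r : ℕ)
    (hq : q < c.1.length ^ c.1.length) (hr : r < c.1.length ^ c.1.length) (j : ℕ)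
    (hj : j < c.1.length) :
    dgN c.1.length (mulC (monC k c) q r) j = dgN c.1.length r (dgN c.1.length q j) := by
  rw [mul_mon k c q r hq hr, dg_enc _ (fun j _ => dg_lt hN _ _) j hj]

theorem fold_mon (k : ℕ) (I : Fin k → Fin k → Prop) (c : List (List ℕ) × List ℕ)
    (hc : IsAut I c) (w : List (Fin k)) (q : ℕ) (hq : q < c.1.length ^ c.1.length) :
    w.foldl (fun q a => mulC (monC k c) q (genC (monC k c) a)) q < c.1.length ^ c.1.length ∧
    ∀ j < c.1.length,
      dgN c.1.length (w.foldl (fun q a => mulC (monC k c) q (genC (monC k c) a)) q) j =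
      w.foldl (next c) (dgN c.1.length q j) := by
  induction w generalizing q with
  | nil => exact ⟨hq, fun j _ => rfl⟩
  | cons a w ih =>
    have hg : genC (monC k c) a < c.1.length ^ c.1.length := by
      rw [gen_mon]
      exact enc_lt _ fun j hj => hc.2.1 j hj a
    have hm := mul_lt k c hc.1 q _ hq hg
    obtain ⟨h1, h2⟩ := ih _ hm
    refine ⟨h1, fun j hj => ?_⟩
    rw [List.foldl_cons, List.foldl_cons, h2 j hj, dg_mul k c hc.1 q _ hq hg j hj, gen_mon,
      dg_enc _ (fun j hj => hc.2.1 j hj a) _ (dg_lt hc.1 _ _)]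

theorem mon2 : S_MON2 := by
  intro k I c hc
  have hN : 0 < c.1.length := hc.1
  have hg : ∀ a : Fin k, genC (monC k c) a < c.1.length ^ c.1.length := by
    intro a
    rw [gen_mon]
    exact enc_lt _ fun j hj => hc.2.1 j hj a
  have hone : (monC k c).2.1 < c.1.length ^ c.1.length := by
    rw [one_mon]
    exact enc_lt _ fun j hj => hj
  have hdg1 : ∀ j < c.1.length, dgN c.1.length (monC k c).2.1 j = j := by
    intro j hj
    rw [one_mon, dg_enc _ (fun j hj => hj) j hj]
  constructor
  · refine ⟨?_, ?_, ?_, ?_, ?_, ?_⟩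
    · intro q hq r hr
      rw [len_mon] at hq hr ⊢
      exact mul_lt k c hN q r hq hr
    · intro q hq r hr s hs
      rw [len_mon] at hq hr hs
      rw [mul_mon k c _ s (mul_lt k c hN q r hq hr) hs,
        mul_mon k c q _ hq (mul_lt k c hN r s hr hs)]
      apply enc_congr
      intro j hj
      rw [dg_mul k c hN q r hq hr j hj, dg_mul k c hN r s hr hs _ (dg_lt hN _ _)]
    · rw [len_mon]
      exact hone
    · intro q hq
      rw [len_mon] at hq
      constructor
      · rw [mul_mon k c _ q hone hq]
        rw [enc_congr _ (dgN c.1.length q) (fun j hj => by rw [hdg1 j hj])]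
        exact enc_dg q hq
      · rw [mul_mon k c q _ hq hone]
        rw [enc_congr _ (dgN c.1.length q) (fun j hj => hdg1 _ (dg_lt hN _ _))]
        exact enc_dg q hq
    · intro a
      rw [len_mon]
      exact hg a
    · intro a b hab
      rw [mul_mon k c _ _ (hg a) (hg b), mul_mon k c _ _ (hg b) (hg a)]
      apply enc_congr
      intro j hj
      have hn : ∀ a : Fin k, ∀ i < c.1.length,
          dgN c.1.length (genC (monC k c) a) i = next c i a := by
        intro a i hi
        rw [gen_mon, dg_enc _ (fun j hj => hc.2.1 j hj a) i hi]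
      rw [hn a j hj, hn b j hj, hn b _ (hc.2.1 j hj a), hn a _ (hc.2.1 j hj b)]
      exact hc.2.2 j hj a b hab
  · have key : ∀ w : List (Fin k),
        w.foldl (fun q a => mulC (monC k c) q (genC (monC k c) a)) (monC k c).2.1 ∈
          (monC k c).2.2.2 ↔ w.foldl (next c) 0 ∈ c.2 := by
      intro w
      obtain ⟨h1, h2⟩ := fold_mon k I c hc w (monC k c).2.1 hone
      show _ ∈ (List.range (c.1.length ^ c.1.length)).filter
        (fun s => decide (dgN c.1.length s 0 ∈ c.2)) ↔ _
      rw [List.mem_filter, List.mem_range, decide_eq_true_iff, h2 0 hN, hdg1 0 hN]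
      exact ⟨fun h => h.2, fun h => ⟨h1, h⟩⟩
    ext m
    constructor
    · rintro ⟨w, hw, h⟩
      exact ⟨w, hw, (key w).mp h⟩
    · rintro ⟨w, hw, h⟩
      exact ⟨w, hw, (key w).mpr h⟩

end Pool.Agent.H30.STMON
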