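import Pool.Agent.H724.ST.Stm

/-! Project ST (helper724), part MZ: closure properties of recognizable relations. -/

set_option autoImplicit false

namespace Pool.Agent.H596.STmz

open Pool.Agent.H724.ST

theorem fin_det {α β X : Type} (g : α → β) (F : α → Set X) (hg : (Set.range g).Finite)
    (h : ∀ a b, g a = g b → F a = F b) : (Set.range F).Finite := by
  have hf : Function.FactorsThrough F g := fun a b hab => h a b hab
  have e : F = (Function.extend g F fun _ => ∅) ∘ g := by
    funext a
    exact (hf.extend_apply (fun _ => ∅) a).symm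
  rw [e, Set.range_comp]
  exact hg.image _

theorem fin_pair {α β γ : Type} {f : α → β} {g : α → γ} (hf : (Set.range f).Finite) (hg : (Set.range g).Finite) :
    (Set.range fun a => (f a, g a)).Finite := by
  refine (hf.prod hg).subset ?_
  rintro _ ⟨a, rfl⟩
  exact ⟨⟨a, rfl⟩, ⟨a, rfl⟩⟩

theorem mez_or {Z1 Z2 : List Bool → List Bool → Prop} (h1 : MezN Z1) (h2 : MezN Z2) :
    MezN (fun u v => Z1 u v ∨ Z2 u v) := by
  constructor
  · refine fin_det _ _ (fin_pair h1.1 h2.1) ?_
    intro u u' h
    simp only [Prod.mk.injEq] at h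
    show {r : List Bool × List Bool | Z1 (u ++ r.1) r.2} ∪ {r : List Bool × List Bool | Z2 (u ++ r.1) r.2} =
      {r : List Bool × List Bool | Z1 (u' ++ r.1) r.2} ∪ {r : List Bool × List Bool | Z2 (u' ++ r.1) r.2}
    rw [h.1, h.2]
  · refine fin_det _ _ (fin_pair h1.2 h2.2) ?_
    intro v v' h
    simp only [Prod.mk.injEq] at h
    show {r : List Bool × List Bool | Z1 r.1 (v ++ r.2)} ∪ {r : List Bool × List Bool | Z2 r.1 (v ++ r.2)} =
      {r : List Bool × List Bool | Z1 r.1 (v' ++ r.2)} ∪ {r : List Bool × List Bool | Z2 r.1 (v' ++ r.2)}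
    rw [h.1, h.2]

theorem mez_prod {A B : Set (List Bool)} (hA : Reg A) (hB : Reg B) : MezN (fun u v => u ∈ A ∧ v ∈ B) := by
  constructor
  · refine fin_det (fun v => {z | v ++ z ∈ A}) _ hA ?_
    intro u u' h
    ext r
    have h1 := Set.ext_iff.1 h r.1
    simp only [Set.mem_setOf_eq] at h1 ⊢
    rw [h1]
  · refine fin_det (fun v => {z | v ++ z ∈ B}) _ hB ?_
    intro u u' h
    ext r
    have h1 := Set.ext_iff.1 h r.2
    simp only [Set.mem_setOf_eq] at h1 ⊢
    rw [h1]

theorem mez_false : MezN (fun _ _ => False) := by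
  have h : ∀ F : List Bool → Set (List Bool × List Bool), (∀ u, F u = ∅) → (Set.range F).Finite := by
    intro F hF
    refine (Set.finite_singleton (∅ : Set (List Bool × List Bool))).subset ?_
    rintro _ ⟨u, rfl⟩
    exact hF u
  exact ⟨h _ fun u => by ext r; simp, h _ fun u => by ext r; simp⟩

theorem mez_fin (ι : Type) (s : Set ι) (hs : s.Finite) (Z : ι → List Bool → List Bool → Prop)
    (h : ∀ k ∈ s, MezN (Z k)) : MezN (fun u v => ∃ k ∈ s, Z k u v) := by
  induction s, hs using Set.Finite.induction_on with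
  | empty =>
    have e : (fun u v => ∃ k ∈ (∅ : Set ι), Z k u v) = fun _ _ => False := by
      funext u v
      simp
    rw [e]
    exact mez_false
  | @insert k s _ _ ih =>
    have e : (fun u v => ∃ k' ∈ insert k s, Z k' u v) = fun u v => Z k u v ∨ ∃ k' ∈ s, Z k' u v := by
      funext u v
      simp [Set.mem_insert_iff]
    rw [e]
    exact mez_or (h k (Set.mem_insert _ _)) (ih fun k' hk' => h k' (Set.mem_insert_of_mem _ hk'))

theorem reg_single (u0 : List Bool) : Reg {u | u = u0} := by
  have h1 : {v : List Bool | v <+: u0}.Finite := by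
    refine (List.finite_toSet u0.inits).subset ?_
    intro v hv
    exact (List.mem_inits v u0).2 hv
  refine ((h1.image fun v => {z | v ++ z ∈ {u | u = u0}}).insert ∅).subset ?_
  rintro _ ⟨v, rfl⟩
  by_cases hv : v <+: u0
  · exact Or.inr ⟨v, hv, rfl⟩
  · left
    ext z
    simp only [Set.mem_setOf_eq, Set.mem_empty_iff_false, iff_false]
    rintro rfl
    exact hv (List.prefix_append _ _)

theorem mezN_of_mez {Z : List Bool → List Bool → Prop} (h : Mez Z) : MezN Z := by
  obtain ⟨σ, τ, hσ, hτ, f, s0, g, t0, F, hF⟩ := h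
  constructor
  · refine fin_det (fun u : List Bool => u.foldl f s0) _ (Set.toFinite _) ?_
    intro u u' h
    ext r
    simp only [Set.mem_setOf_eq, hF, List.foldl_append]
    rw [h]
  · refine fin_det (fun u : List Bool => u.foldl g t0) _ (Set.toFinite _) ?_
    intro u u' h
    ext r
    simp only [Set.mem_setOf_eq, hF, List.foldl_append]
    rw [h]

theorem mez_of_mezN {Z : List Bool → List Bool → Prop} (h : MezN Z) : Mez Z := by
  let tl : List Bool → Set (List Bool × List Bool) := fun u => {r | Z (u ++ r.1) r.2}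
  let tr : List Bool → Set (List Bool × List Bool) := fun v => {r | Z r.1 (v ++ r.2)}
  have hl : ∀ u b, tl (u ++ [b]) = {r | (b :: r.1, r.2) ∈ tl u} := by
    intro u b
    ext r
    show Z (u ++ [b] ++ r.1) r.2 ↔ Z (u ++ (b :: r.1)) r.2
    rw [List.append_assoc, List.singleton_append]
  have hr : ∀ v b, tr (v ++ [b]) = {r | (r.1, b :: r.2) ∈ tr v} := by
    intro v b
    ext r
    show Z r.1 (v ++ [b] ++ r.2) ↔ Z r.1 (v ++ (b :: r.2))
    rw [List.append_assoc, List.singleton_append]
  haveI h1 : Finite (Set.range tl) := h.1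
  haveI h2 : Finite (Set.range tr) := h.2
  refine ⟨Set.range tl, Set.range tr, h1, h2,
    fun X b => ⟨{r | (b :: r.1, r.2) ∈ X.1}, by
      obtain ⟨_, u, rfl⟩ := X
      exact ⟨u ++ [b], hl u b⟩⟩, ⟨tl [], [], rfl⟩,
    fun X b => ⟨{r | (r.1, b :: r.2) ∈ X.1}, by
      obtain ⟨_, v, rfl⟩ := X
      exact ⟨v ++ [b], hr v b⟩⟩, ⟨tr [], [], rfl⟩,
    {x | ∃ u v, tl u = x.1.1 ∧ tr v = x.2.1 ∧ Z u v}, ?_⟩
  intro u v
  have e1 : ∀ u : List Bool, (u.foldl (fun (X : Set.range tl) b => (⟨{r | (b :: r.1, r.2) ∈ X.1}, by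
      obtain ⟨_, u, rfl⟩ := X
      exact ⟨u ++ [b], hl u b⟩⟩ : Set.range tl)) ⟨tl [], [], rfl⟩).1 = tl u := by
    intro u
    induction u using List.reverseRecOn with
    | nil => rfl
    | append_singleton u b ih =>
      rw [List.foldl_append, hl]
      simp only [List.foldl_cons, List.foldl_nil]
      rw [ih]
  have e2 : ∀ v : List Bool, (v.foldl (fun (X : Set.range tr) b => (⟨{r | (r.1, b :: r.2) ∈ X.1}, by
      obtain ⟨_, v, rfl⟩ := X
      exact ⟨v ++ [b], hr v b⟩⟩ : Set.range tr)) ⟨tr [], [], rfl⟩).1 = tr v := by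
    intro v
    induction v using List.reverseRecOn with
    | nil => rfl
    | append_singleton v b ih =>
      rw [List.foldl_append, hr]
      simp only [List.foldl_cons, List.foldl_nil]
      rw [ih]
  constructor
  · intro hz
    exact ⟨u, v, (e1 u).symm, (e2 v).symm, hz⟩
  · rintro ⟨u', v', h3, h4, h5⟩
    have h3' : tl u' = tl u := h3.trans (e1 u)
    have h4' : tr v' = tr v := h4.trans (e2 v)
    have h6 : (([] : List Bool), v') ∈ tl u' := by
      show Z (u' ++ []) v'
      rw [List.append_nil]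
      exact h5
    rw [h3'] at h6
    have h7 : Z u v' := by
      have : Z (u ++ []) v' := h6
      rwa [List.append_nil] at this
    have h8 : (u, ([] : List Bool)) ∈ tr v' := by
      show Z u (v' ++ [])
      rw [List.append_nil]
      exact h7
    rw [h4'] at h8
    have h9 : Z u (v ++ []) := h8
    rwa [List.append_nil] at h9

theorem mz : S_MZ :=
  ⟨fun _ _ h1 h2 => mez_or h1 h2, fun _ _ hA hB => mez_prod hA hB, mez_fin, reg_single,
    fun _ => ⟨mez_of_mezN, mezN_of_mez⟩⟩

end Pool.Agent.H596.STmz
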