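import Pool.Agent.H724.ST.Stm

/-!
# The star problem: visible letters of coded words (for helper724, project ST)
-/

set_option autoImplicit false

namespace Pool.Agent.H726.ST

open Pool.Agent.H724.ST

theorem absorb (C : Chk) (u : List Bool) : ∀ s : ℕ × ℕ × ℕ × ℕ, s.1 = 3 →
    (u.foldl (scs C) s).1 = 3 := by
  induction u with
  | nil => intro s h; exact h
  | cons b u ih =>
    intro s h
    rw [List.foldl_cons]
    apply ih
    simp [scs, h]

theorem rn_succ (n : ℕ) : rn (n + 1) = false :: rn n := rfl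

theorem rn0 (C : Chk) (n : ℕ) : ∀ al, ((rn n).foldl (scs C) (0, al, 0, 0)).1 ≠ 3 →
    (rn n).foldl (scs C) (0, al, 0, 0) = (0, al + n, 0, 0) := by
  induction n with
  | zero => intro al _; rfl
  | succ n ih =>
    intro al h
    rw [rn_succ, List.foldl_cons] at h ⊢
    by_cases hE : al < C.E
    · have e2 : scs C (0, al, 0, 0) false = (0, al + 1, 0, 0) := by simp [scs, hE]
      rw [e2] at h ⊢
      rw [ih _ h, show al + 1 + n = al + (n + 1) by ring]
    · have e2 : scs C (0, al, 0, 0) false = (3, 0, 0, 0) := by simp [scs, hE]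
      rw [e2] at h
      exact absurd (absorb C _ _ rfl) h

theorem rn1 (C : Chk) (n al : ℕ) : ∀ g, ((rn n).foldl (scs C) (1, al, 0, g)).1 ≠ 3 →
    (rn n).foldl (scs C) (1, al, 0, g) = (1, al, 0, g + n) := by
  induction n with
  | zero => intro g _; rfl
  | succ n ih =>
    intro g h
    rw [rn_succ, List.foldl_cons] at h ⊢
    by_cases hE : g < C.E
    · have e2 : scs C (1, al, 0, g) false = (1, al, 0, g + 1) := by simp [scs, hE]
      rw [e2] at h ⊢
      rw [ih _ h, show g + 1 + n = g + (n + 1) by ring]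
    · have e2 : scs C (1, al, 0, g) false = (3, 0, 0, 0) := by simp [scs, hE]
      rw [e2] at h
      exact absurd (absorb C _ _ rfl) h

theorem rn2 (C : Chk) (n al l : ℕ) : ∀ g, ((rn n).foldl (scs C) (2, al, l, g)).1 ≠ 3 →
    (rn n).foldl (scs C) (2, al, l, g) = (2, al, l, g + n) := by
  induction n with
  | zero => intro g _; rfl
  | succ n ih =>
    intro g h
    rw [rn_succ, List.foldl_cons] at h ⊢
    by_cases hE : g < C.E
    · have e2 : scs C (2, al, l, g) false = (2, al, l, g + 1) := by simp [scs, hE]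
      rw [e2] at h ⊢
      rw [ih _ h, show g + 1 + n = g + (n + 1) by ring]
    · have e2 : scs C (2, al, l, g) false = (3, 0, 0, 0) := by simp [scs, hE]
      rw [e2] at h
      exact absurd (absorb C _ _ rfl) h

theorem good_iff (C : Chk) (y : ℕ) (h : good C ((y + 1) * (C.N + 1)) = true) :
    y < C.p ∧ C.l1 y = true := by
  unfold good at h
  simp only [Bool.and_eq_true, decide_eq_true_eq] at h
  obtain ⟨⟨⟨-, -⟩, h1⟩, h2⟩ := h
  rw [Nat.mul_div_cancel _ (Nat.succ_pos _), Nat.add_sub_cancel] at h2
  refine ⟨?_, h2⟩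
  have h3 : (y + 1) * (C.N + 1) ≤ C.p * (C.N + 1) := h1
  have h4 := Nat.le_of_mul_le_mul_right h3 (Nat.succ_pos _)
  omega

theorem sc_succ (C : Chk) (x : ℕ → ℕ) (T : ℕ) : sc C (blks C x (T + 1)) =
    ([true, false] : List Bool).foldl (scs C)
      ((rn ((x T + 1) * (C.N + 1) - 1)).foldl (scs C) (sc C (blks C x T))) := by
  show ((blks C x T ++ (rn ((x T + 1) * (C.N + 1) - 1) ++ [true, false])).foldl (scs C)
    (0, 0, 0, 0)) = _
  rw [List.foldl_append, List.foldl_append]
  rfl

theorem state (C : Chk) (x : ℕ → ℕ) (T : ℕ) : OK C (blks C x T) →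
    ((T = 0 → sc C (blks C x T) = (0, 0, 0, 0)) ∧
      (T = 1 → ∃ al, sc C (blks C x T) = (1, al, 0, 1)) ∧
      (2 ≤ T → ∃ al, sc C (blks C x T) = (2, al, (x (T - 1) + 1) * (C.N + 1), 1))) ∧
    ∀ i, 1 ≤ i → (i < T → x i < C.p ∧ C.l1 (x i) = true) ∧
      (i + 1 < T → C.l2 (x i) (x (i + 1)) = true) := by
  induction T with
  | zero =>
    intro _
    refine ⟨⟨fun _ => rfl, fun h => absurd h (by norm_num), fun h => absurd h (by norm_num)⟩, ?_⟩
    intro i hi
    exact ⟨fun h => absurd h (by omega), fun h => absurd h (by omega)⟩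
  | succ T ih =>
    intro hOK
    have hM : 0 < (x T + 1) * (C.N + 1) := Nat.mul_pos (Nat.succ_pos _) (Nat.succ_pos _)
    unfold OK at hOK
    rw [sc_succ] at hOK ⊢
    have h1 : ((rn ((x T + 1) * (C.N + 1) - 1)).foldl (scs C) (sc C (blks C x T))).1 ≠ 3 :=
      fun h => hOK (absorb C _ _ h)
    have h2 : OK C (blks C x T) := fun h => h1 (absorb C _ _ h)
    obtain ⟨⟨i0, i1, i2⟩, ih⟩ := ih h2
    rcases Nat.lt_trichotomy T 1 with hT | hT | hT
    · have hT0 : T = 0 := by omega
      subst hT0
      rw [i0 rfl] at hOK h1 ⊢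
      rw [rn0 C _ _ h1] at hOK ⊢
      refine ⟨⟨fun h => absurd h (by norm_num), fun _ => ?_, fun h => absurd h (by norm_num)⟩, ?_⟩
      · by_cases hE : 0 < C.E
        · exact ⟨0 + ((x 0 + 1) * (C.N + 1) - 1), by simp [scs, hE]⟩
        · exact absurd (by simp [scs, hE]) hOK
      · intro i hi
        exact ⟨fun h => absurd h (by omega), fun h => absurd h (by omega)⟩
    · subst hT
      obtain ⟨al, e⟩ := i1 rfl
      rw [e] at hOK h1 ⊢
      rw [rn1 C _ _ _ h1, show 1 + ((x 1 + 1) * (C.N + 1) - 1) = (x 1 + 1) * (C.N + 1) by omega]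
        at hOK ⊢
      by_cases hg : good C ((x 1 + 1) * (C.N + 1)) = true
      · refine ⟨⟨fun h => absurd h (by norm_num), fun h => absurd h (by norm_num), fun _ => ?_⟩, ?_⟩
        · by_cases hE : 0 < C.E
          · exact ⟨al, by simp [scs, hE, hg]⟩
          · exact absurd (by simp [scs, hE, hg]) hOK
        · intro i hi
          refine ⟨fun h => ?_, fun h => absurd h (by omega)⟩
          have hi1 : i = 1 := by omega
          subst hi1
          exact good_iff C _ hg
      · exact absurd (by simp [scs, hg]) hOK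
    · obtain ⟨al, e⟩ := i2 (by omega)
      rw [e] at hOK h1 ⊢
      rw [rn2 C _ _ _ _ h1, show 1 + ((x T + 1) * (C.N + 1) - 1) = (x T + 1) * (C.N + 1) by omega]
        at hOK ⊢
      have hd1 : (x (T - 1) + 1) * (C.N + 1) / (C.N + 1) - 1 = x (T - 1) := by
        rw [Nat.mul_div_cancel _ (Nat.succ_pos _), Nat.add_sub_cancel]
      have hd2 : (x T + 1) * (C.N + 1) / (C.N + 1) - 1 = x T := by
        rw [Nat.mul_div_cancel _ (Nat.succ_pos _), Nat.add_sub_cancel]
      by_cases hg : good C ((x T + 1) * (C.N + 1)) = true ∧ C.l2 (x (T - 1)) (x T) = true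
      · have e1 : scs C (2, al, (x (T - 1) + 1) * (C.N + 1), (x T + 1) * (C.N + 1)) true =
            (2, al, (x T + 1) * (C.N + 1), 0) := by
          simp only [scs]
          rw [hd1, hd2, if_neg (by norm_num), if_neg (by norm_num), if_pos trivial, if_pos trivial,
            if_pos hg]
        rw [List.foldl_cons, e1] at hOK ⊢
        refine ⟨⟨fun h => absurd h (by omega), fun h => absurd h (by omega), fun _ => ?_⟩, ?_⟩
        · by_cases hE : 0 < C.E
          · exact ⟨al, by simp [scs, hE]⟩
          · exact absurd (by simp [scs, hE]) hOK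
        · intro i hi
          refine ⟨fun h => ?_, fun h => ?_⟩
          · rcases Nat.lt_succ_iff_lt_or_eq.1 h with h | h
            · exact (ih i hi).1 h
            · rw [h]; exact good_iff C _ hg.1
          · rcases Nat.lt_succ_iff_lt_or_eq.1 h with h | h
            · exact (ih i hi).2 h
            · have : i = T - 1 := by omega
              rw [h, this]
              exact hg.2
      · have e1 : scs C (2, al, (x (T - 1) + 1) * (C.N + 1), (x T + 1) * (C.N + 1)) true =
            (3, 0, 0, 0) := by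
          simp only [scs]
          rw [hd1, hd2, if_neg (by norm_num), if_neg (by norm_num), if_pos trivial, if_pos trivial,
            if_neg hg]
        rw [List.foldl_cons, e1] at hOK
        exact absurd (absorb C _ _ rfl) hOK

theorem okc : S_OKC := by
  intro C _ x T hOK
  exact (state C x T hOK).2

end Pool.Agent.H726.ST
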