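import Pool.Agent.H724.ST.Stm

set_option autoImplicit false

/-! # ST-OKU: coded tapes are OK (subtask by helper284) -/

namespace Pool.Agent.H284.STOKU

open Pool.Agent.H724.ST

lemma rn_succ (k : ℕ) : rn (k + 1) = false :: rn k := rfl

lemma step0 (C : Chk) {al : ℕ} (h : al < C.E) : scs C (0, al, 0, 0) false = (0, al + 1, 0, 0) := by
  simp [scs, h]

lemma step1 (C : Chk) {al g : ℕ} (h : g < C.E) :
    scs C (1, al, 0, g) false = (1, al, 0, g + 1) := by
  simp [scs, h]

lemma step2 (C : Chk) {al l g : ℕ} (h : g < C.E) :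
    scs C (2, al, l, g) false = (2, al, l, g + 1) := by
  simp [scs, h]

lemma read0 (C : Chk) : ∀ (k al : ℕ), al + k ≤ C.E →
    (rn k).foldl (scs C) (0, al, 0, 0) = (0, al + k, 0, 0) := by
  intro k
  induction k with
  | zero =>
    intro al _
    rfl
  | succ k ih =>
    intro al h
    rw [rn_succ, List.foldl_cons, step0 C (by omega), ih (al + 1) (by omega)]
    rw [show al + 1 + k = al + (k + 1) by omega]

lemma read1 (C : Chk) : ∀ (k al g : ℕ), g + k ≤ C.E →
    (rn k).foldl (scs C) (1, al, 0, g) = (1, al, 0, g + k) := by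
  intro k
  induction k with
  | zero =>
    intro al g _
    rfl
  | succ k ih =>
    intro al g h
    rw [rn_succ, List.foldl_cons, step1 C (by omega), ih al (g + 1) (by omega)]
    rw [show g + 1 + k = g + (k + 1) by omega]

lemma read2 (C : Chk) : ∀ (k al l g : ℕ), g + k ≤ C.E →
    (rn k).foldl (scs C) (2, al, l, g) = (2, al, l, g + k) := by
  intro k
  induction k with
  | zero =>
    intro al l g _
    rfl
  | succ k ih =>
    intro al l g h
    rw [rn_succ, List.foldl_cons, step2 C (by omega), ih al l (g + 1) (by omega)]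
    rw [show g + 1 + k = g + (k + 1) by omega]

/-- the length of the run of a letter -/
def ee (C : Chk) (x : ℕ) : ℕ := (x + 1) * (C.N + 1)

lemma ee_pos (C : Chk) (x : ℕ) : 0 < ee C x := by
  unfold ee
  positivity

lemma ee_le (C : Chk) {x : ℕ} (h : x < C.p) : ee C x ≤ C.E := by
  unfold ee Chk.E
  exact Nat.mul_le_mul_right _ h

lemma ee_div (C : Chk) (x : ℕ) : ee C x / (C.N + 1) - 1 = x := by
  unfold ee
  rw [Nat.mul_div_cancel _ (Nat.succ_pos _)]
  rfl

lemma good_ee (C : Chk) {x : ℕ} (h : x < C.p) (hl : C.l1 x = true) : good C (ee C x) = true := by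
  unfold good
  rw [ee_div, hl]
  have h1 : ee C x % (C.N + 1) = 0 := by
    unfold ee
    exact Nat.mul_mod_left _ _
  rw [decide_eq_true h1, decide_eq_true (ee_pos C x), decide_eq_true (ee_le C h)]
  rfl

lemma sc_append (C : Chk) (u v : List Bool) : sc C (u ++ v) = v.foldl (scs C) (sc C u) := by
  unfold sc
  rw [List.foldl_append]

lemma blk_fold (C : Chk) (x : ℕ) (s : ℕ × ℕ × ℕ × ℕ) :
    (blk C x).foldl (scs C) s =
      scs C (scs C ((rn (ee C x - 1)).foldl (scs C) s) true) false := by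
  unfold blk ee
  rw [List.foldl_append]
  rfl

lemma E_pos (C : Chk) (h : WF C) : 0 < C.E := by
  unfold Chk.E
  have := h.hp
  positivity

lemma st1 (C : Chk) (hC : WF C) (x : ℕ → ℕ) (h : Cons C x 1) :
    sc C (blks C x 1) = (1, ee C (x 0) - 1, 0, 1) := by
  have h1 := ee_le C (h.1 0 (by omega)).1
  have h2 : blks C x 1 = [] ++ blk C (x 0) := rfl
  rw [h2, sc_append, blk_fold]
  have h3 : sc C [] = (0, 0, 0, 0) := rfl
  rw [h3, read0 C _ 0 (by omega), Nat.zero_add]
  have h4 : scs C (0, ee C (x 0) - 1, 0, 0) true = (1, ee C (x 0) - 1, 0, 0) := by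
    simp [scs]
  rw [h4, step1 C (E_pos C hC)]

lemma st2 (C : Chk) (hC : WF C) (x : ℕ → ℕ) (h : Cons C x 2) :
    sc C (blks C x 2) = (2, ee C (x 0) - 1, ee C (x 1), 1) := by
  have hc := h.1 1 (by omega)
  have h1 := ee_le C hc.1
  have h2 : blks C x 2 = blks C x 1 ++ blk C (x 1) := rfl
  rw [h2, sc_append, blk_fold, st1 C hC x ⟨fun i hi => h.1 i (by omega), fun i hi => by omega⟩]
  have hp := ee_pos C (x 1)
  rw [read1 C _ _ 1 (by omega), show 1 + (ee C (x 1) - 1) = ee C (x 1) by omega]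
  have h4 : scs C (1, ee C (x 0) - 1, 0, ee C (x 1)) true = (2, ee C (x 0) - 1, ee C (x 1), 0) := by
    simp [scs, good_ee C hc.1 hc.2]
  rw [h4, step2 C (E_pos C hC)]

lemma st3 (C : Chk) (hC : WF C) (x : ℕ → ℕ) : ∀ T, Cons C x (T + 2) →
    sc C (blks C x (T + 2)) = (2, ee C (x 0) - 1, ee C (x (T + 1)), 1) := by
  intro T
  induction T with
  | zero =>
    intro h
    exact st2 C hC x h
  | succ T ih =>
    intro h
    have hc := h.1 (T + 2) (by omega)
    have h1 := ee_le C hc.1
    have h2 : blks C x (T + 1 + 2) = blks C x (T + 2) ++ blk C (x (T + 2)) := rfl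
    rw [h2, sc_append, blk_fold, ih ⟨fun i hi => h.1 i (by omega), fun i hi => h.2 i (by omega)⟩]
    have hp := ee_pos C (x (T + 2))
    rw [read2 C _ _ _ 1 (by omega), show 1 + (ee C (x (T + 2)) - 1) = ee C (x (T + 2)) by omega]
    have h5 := h.2 (T + 1) (by omega)
    have h4 : scs C (2, ee C (x 0) - 1, ee C (x (T + 1)), ee C (x (T + 2))) true =
        (2, ee C (x 0) - 1, ee C (x (T + 2)), 0) := by
      simp [scs, good_ee C hc.1 hc.2, ee_div, h5]
    rw [h4, step2 C (E_pos C hC)]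

/-- **ST-OKU.** -/
theorem oku : S_OKU := by
  intro C hC x T hT g hg
  unfold OK
  rw [sc_append]
  match T, hT with
  | 0, _ =>
    have h3 : sc C (blks C x 0) = (0, 0, 0, 0) := rfl
    rw [h3, read0 C g 0 (by omega)]
    show (0 : ℕ) ≠ 3
    decide
  | 1, hT =>
    rw [st1 C hC x hT, read1 C g _ 1 (by omega)]
    show (1 : ℕ) ≠ 3
    decide
  | T + 2, hT =>
    rw [st3 C hC x T hT, read2 C g _ _ 1 (by omega)]
    show (2 : ℕ) ≠ 3
    decide

end Pool.Agent.H284.STOKU
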