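import Pool.Agent.H724.ST.Stm

/-!
# The scanner step of the family `CT` is primitive recursive
-/

set_option autoImplicit false

namespace Pool.Agent.H196.ST

open Pool.Agent.H724.ST

section

variable {α : Type} [Primcodable α] (D p : ℕ) (G : List ℕ) (T1 T2 : List Bool)

theorem pr_M {n : α → ℕ} (hn : Primrec n) : Primrec fun a => D * (n a + 2) + 1 :=
  Primrec.nat_add.comp (Primrec.nat_mul.comp (Primrec.const D)
    (Primrec.nat_add.comp hn (Primrec.const 2))) (Primrec.const 1)

theorem pr_E {n : α → ℕ} (hn : Primrec n) : Primrec fun a => p * (D * (n a + 2) + 1) :=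
  Primrec.nat_mul.comp (Primrec.const p) (pr_M D hn)

theorem pr_letter {n e : α → ℕ} (hn : Primrec n) (he : Primrec e) :
    Primrec fun a => e a / (D * (n a + 2) + 1) - 1 :=
  Primrec.nat_sub.comp (Primrec.nat_div.comp he (pr_M D hn)) (Primrec.const 1)

theorem pr_good {n e : α → ℕ} (hn : Primrec n) (he : Primrec e) :
    Primrec fun a => good (CT D p G T1 T2 (n a)) (e a) := by
  have h1 : Primrec fun a => decide (e a % (D * (n a + 2) + 1) = 0) :=
    (Primrec.eq.comp (Primrec.nat_mod.comp he (pr_M D hn)) (Primrec.const 0)).decide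
  have h2 : Primrec fun a => decide (0 < e a) :=
    (Primrec.nat_lt.comp (Primrec.const 0) he).decide
  have h3 : Primrec fun a => decide (e a ≤ p * (D * (n a + 2) + 1)) :=
    (Primrec.nat_le.comp he (pr_E D p hn)).decide
  have h4 : Primrec fun a => T1.getD (e a / (D * (n a + 2) + 1) - 1) false :=
    (Primrec.list_getD false).comp (Primrec.const T1) (pr_letter D hn he)
  exact Primrec.and.comp (Primrec.and.comp (Primrec.and.comp h1 h2) h3) h4

theorem pr_l2 {n l e : α → ℕ} (hn : Primrec n) (hl : Primrec l) (he : Primrec e) :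
    Primrec fun a => (CT D p G T1 T2 (n a)).l2 (l a / (D * (n a + 2) + 1) - 1)
      (e a / (D * (n a + 2) + 1) - 1) := by
  have h4 : Primrec fun a => T2.getD ((l a / (D * (n a + 2) + 1) - 1) * p +
      (e a / (D * (n a + 2) + 1) - 1)) false :=
    (Primrec.list_getD false).comp (Primrec.const T2)
      (Primrec.nat_add.comp (Primrec.nat_mul.comp (pr_letter D hn hl) (Primrec.const p))
        (pr_letter D hn he))
  exact h4

theorem pr_quad {a b c d : α → ℕ} (ha : Primrec a) (hb : Primrec b) (hc : Primrec c)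
    (hd : Primrec d) : Primrec fun x => (a x, b x, c x, d x) :=
  ha.pair (hb.pair (hc.pair hd))

theorem pr_scs {n : α → ℕ} {s : α → ℕ × ℕ × ℕ × ℕ} {b : α → Bool} (hn : Primrec n)
    (hs : Primrec s) (hb : Primrec b) :
    Primrec fun a => scs (CT D p G T1 T2 (n a)) (s a) (b a) := by
  have k1 : Primrec fun a => (s a).1 := Primrec.fst.comp hs
  have k2 : Primrec fun a => (s a).2.1 := Primrec.fst.comp (Primrec.snd.comp hs)
  have k3 : Primrec fun a => (s a).2.2.1 :=
    Primrec.fst.comp (Primrec.snd.comp (Primrec.snd.comp hs))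
  have k4 : Primrec fun a => (s a).2.2.2 :=
    Primrec.snd.comp (Primrec.snd.comp (Primrec.snd.comp hs))
  have c1 : ∀ m : ℕ, PrimrecPred fun a => (s a).1 = m := fun m =>
    Primrec.eq.comp k1 (Primrec.const m)
  have cb : PrimrecPred fun a => b a = true := Primrec.eq.comp hb (Primrec.const true)
  have cE : ∀ {f : α → ℕ}, Primrec f →
      PrimrecPred fun a => f a < (CT D p G T1 T2 (n a)).E := fun hf =>
    Primrec.nat_lt.comp hf (pr_E D p hn)
  have cg : PrimrecPred fun a => good (CT D p G T1 T2 (n a)) (s a).2.2.2 = true :=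
    Primrec.eq.comp (pr_good D p G T1 T2 hn k4) (Primrec.const true)
  have cl : PrimrecPred fun a => (CT D p G T1 T2 (n a)).l2
      ((s a).2.2.1 / ((CT D p G T1 T2 (n a)).N + 1) - 1)
      ((s a).2.2.2 / ((CT D p G T1 T2 (n a)).N + 1) - 1) = true :=
    Primrec.eq.comp (pr_l2 D p G T1 T2 hn k3 k4) (Primrec.const true)
  have kc : ∀ m : ℕ, Primrec fun _ : α => m := fun m => Primrec.const m
  have k3000 : Primrec fun _ : α => ((3, 0, 0, 0) : ℕ × ℕ × ℕ × ℕ) := Primrec.const _
  have ks : ∀ {f : α → ℕ}, Primrec f → Primrec fun a => f a + 1 := fun hf =>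
    Primrec.nat_add.comp hf (Primrec.const 1)
  refine Primrec.ite (c1 0) ?_ (Primrec.ite (c1 1) ?_ (Primrec.ite (c1 2) ?_ k3000))
  · exact Primrec.ite cb (pr_quad (kc 1) k2 (kc 0) (kc 0))
      (Primrec.ite (cE k2) (pr_quad (kc 0) (ks k2) (kc 0) (kc 0)) k3000)
  · exact Primrec.ite cb (Primrec.ite cg (pr_quad (kc 2) k2 k4 (kc 0)) k3000)
      (Primrec.ite (cE k4) (pr_quad (kc 1) k2 (kc 0) (ks k4)) k3000)
  · exact Primrec.ite cb (Primrec.ite (cg.and cl) (pr_quad (kc 2) k2 k4 (kc 0)) k3000)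
      (Primrec.ite (cE k4) (pr_quad (kc 2) k2 k3 (ks k4)) k3000)

end

theorem p1 : S_P1 := by
  intro D p G T1 T2
  exact pr_scs D p G T1 T2 Primrec.fst (Primrec.fst.comp Primrec.snd)
    (Primrec.snd.comp Primrec.snd)

end Pool.Agent.H196.ST
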