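import Pool.Agent.H724.ST.Stm

/-!
# ST-P2 (helper724): the acceptance test is primitive recursive
-/

set_option autoImplicit false

namespace Pool.Agent.H100.ST

open Pool.Agent.H724.ST

section

variable {α : Type} [Primcodable α]

theorem padd {f g : α → ℕ} (hf : Primrec f) (hg : Primrec g) : Primrec fun a => f a + g a :=
  Primrec.nat_add.comp hf hg

theorem psub {f g : α → ℕ} (hf : Primrec f) (hg : Primrec g) : Primrec fun a => f a - g a :=
  Primrec.nat_sub.comp hf hg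

theorem pmul {f g : α → ℕ} (hf : Primrec f) (hg : Primrec g) : Primrec fun a => f a * g a :=
  Primrec.nat_mul.comp hf hg

theorem pdiv {f g : α → ℕ} (hf : Primrec f) (hg : Primrec g) : Primrec fun a => f a / g a :=
  Primrec.nat_div.comp hf hg

theorem pmod {f g : α → ℕ} (hf : Primrec f) (hg : Primrec g) : Primrec fun a => f a % g a :=
  Primrec.nat_mod.comp hf hg

theorem pmin {f g : α → ℕ} (hf : Primrec f) (hg : Primrec g) : Primrec fun a => min (f a) (g a) :=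
  Primrec.nat_min.comp hf hg

theorem pc (n : ℕ) : Primrec fun _ : α => n := Primrec.const n

theorem peq {f g : α → ℕ} (hf : Primrec f) (hg : Primrec g) :
    PrimrecPred fun a => f a = g a := Primrec.eq.comp hf hg

theorem pdeq {f g : α → ℕ} (hf : Primrec f) (hg : Primrec g) :
    Primrec fun a => decide (f a = g a) := (peq hf hg).decide

theorem pdne {f g : α → ℕ} (hf : Primrec f) (hg : Primrec g) :
    Primrec fun a => decide (f a ≠ g a) := ((peq hf hg).not).decide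

theorem pand {f g : α → Bool} (hf : Primrec f) (hg : Primrec g) : Primrec fun a => (f a && g a) :=
  Primrec.and.comp hf hg

theorem por {f g : α → Bool} (hf : Primrec f) (hg : Primrec g) : Primrec fun a => (f a || g a) :=
  Primrec.or.comp hf hg

/-- the transition function -/
theorem pdl (p : ℕ) (G : List ℕ) {n q x y : α → ℕ} (hn : Primrec n) (hq : Primrec q)
    (hx : Primrec x) (hy : Primrec y) : Primrec fun a => dlT p G (n a) (q a) (x a) (y a) := by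
  have h1 : Primrec fun a => q a - 1 := psub hq (pc 1)
  have h2 : Primrec fun a => n a + 2 := padd hn (pc 2)
  have h3 : Primrec fun a => (q a - 1) / (n a + 2) := pdiv h1 h2
  have h4 : Primrec fun a => (q a - 1) % (n a + 2) := pmod h1 h2
  have h5 : Primrec fun a => if (q a - 1) % (n a + 2) = n a then 1 else 0 :=
    Primrec.ite (peq h4 hn) (pc 1) (pc 0)
  have h6 : Primrec fun a => G.getD ((((q a - 1) / (n a + 2) * 2 +
      (if (q a - 1) % (n a + 2) = n a then 1 else 0)) * p + x a) * p + y a) 0 :=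
    (Primrec.list_getD 0).comp (Primrec.const G)
      (padd (pmul (padd (pmul (padd (pmul h3 (pc 2)) h5) (pc p)) hx) (pc p)) hy)
  have h7 : Primrec fun a => (G.getD ((((q a - 1) / (n a + 2) * 2 +
      (if (q a - 1) % (n a + 2) = n a then 1 else 0)) * p + x a) * p + y a) 0 - 1) :=
    psub h6 (pc 1)
  unfold dlT
  refine Primrec.ite (peq h6 (pc 0)) (pc 0) ?_
  refine padd (padd (pc 1) (pmul (pdiv h7 (pc 3)) h2)) ?_
  refine Primrec.ite (peq (pmod h7 (pc 3)) (pc 0)) (pc 0) ?_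
  refine Primrec.ite (peq (pmod h7 (pc 3)) (pc 1)) h4 ?_
  exact pmin (padd h4 (pc 1)) (padd hn (pc 1))

/-- equality with a constant state -/
theorem pst (c : ℕ × ℕ × ℕ × ℕ) {f : α → ℕ × ℕ × ℕ × ℕ} (hf : Primrec f) :
    Primrec fun a => decide (f a = c) :=
  (Primrec.eq.comp hf (Primrec.const c) : PrimrecPred fun a => f a = c).decide

end

theorem p2 : S_P2 := by
  intro D p G T1 T2
  have n1 : Primrec fun r : ℕ × (ℕ × ℕ × ℕ × ℕ) × (ℕ × ℕ × ℕ × ℕ) => r.1 := Primrec.fst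
  have hs : Primrec fun r : ℕ × (ℕ × ℕ × ℕ × ℕ) × (ℕ × ℕ × ℕ × ℕ) => r.2.1 :=
    Primrec.fst.comp Primrec.snd
  have ht : Primrec fun r : ℕ × (ℕ × ℕ × ℕ × ℕ) × (ℕ × ℕ × ℕ × ℕ) => r.2.2 :=
    Primrec.snd.comp Primrec.snd
  have s1 : Primrec fun r : ℕ × (ℕ × ℕ × ℕ × ℕ) × (ℕ × ℕ × ℕ × ℕ) => r.2.1.1 :=
    Primrec.fst.comp hs
  have s2 : Primrec fun r : ℕ × (ℕ × ℕ × ℕ × ℕ) × (ℕ × ℕ × ℕ × ℕ) => r.2.1.2.1 :=
    Primrec.fst.comp (Primrec.snd.comp hs)
  have s4 : Primrec fun r : ℕ × (ℕ × ℕ × ℕ × ℕ) × (ℕ × ℕ × ℕ × ℕ) => r.2.1.2.2.2 :=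
    Primrec.snd.comp (Primrec.snd.comp (Primrec.snd.comp hs))
  have t1 : Primrec fun r : ℕ × (ℕ × ℕ × ℕ × ℕ) × (ℕ × ℕ × ℕ × ℕ) => r.2.2.1 :=
    Primrec.fst.comp ht
  have t2 : Primrec fun r : ℕ × (ℕ × ℕ × ℕ × ℕ) × (ℕ × ℕ × ℕ × ℕ) => r.2.2.2.1 :=
    Primrec.fst.comp (Primrec.snd.comp ht)
  have t4 : Primrec fun r : ℕ × (ℕ × ℕ × ℕ × ℕ) × (ℕ × ℕ × ℕ × ℕ) => r.2.2.2.2.2 :=
    Primrec.snd.comp (Primrec.snd.comp (Primrec.snd.comp ht))
  have hN : Primrec fun r : ℕ × (ℕ × ℕ × ℕ × ℕ) × (ℕ × ℕ × ℕ × ℕ) => D * (r.1 + 2) :=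
    pmul (pc D) (padd n1 (pc 2))
  have hM : Primrec fun r : ℕ × (ℕ × ℕ × ℕ × ℕ) × (ℕ × ℕ × ℕ × ℕ) => D * (r.1 + 2) + 1 :=
    padd hN (pc 1)
  have sm := pmod s2 hM
  have tm := pmod t2 hM
  have sd := pdiv s2 hM
  have td := pdiv t2 hM
  have hdl := pdl p G n1 (psub hM sm) sd td
  refine por (por (por (por (por (pdeq s1 (pc 3)) (pdeq t1 (pc 3))) ?_) ?_) ?_) ?_
  · exact pand (pand (pand (pdeq s1 (pc 1)) (pdeq sm hN)) (pdeq s4 (pc 1))) (pst _ ht)
  · exact pand (pand (pand (pdeq t1 (pc 1)) (pdeq tm hN)) (pdeq t4 (pc 1))) (pst _ hs)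
  · exact pand (pand (pand (pand (pand (pand (pdeq s1 (pc 1)) (pdeq t1 (pc 1))) (pdeq sm tm))
      (pdne sm (pc 0))) (pdeq s4 t4)) (pdne s4 (pc 0))) (por (pdeq s4 (pc 1)) (pdeq s4 hdl))
  · exact pand (pand (pand (pand (por (pdeq s1 (pc 1)) (pdeq s1 (pc 2)))
      (por (pdeq t1 (pc 1)) (pdeq t1 (pc 2)))) (pdeq sm tm)) (pdne sm (pc 0))) (pdeq hdl (pc 0))

end Pool.Agent.H100.ST
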