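import Pool.Agent.H724.ST.Stm

/-!
# Star problem: the code of the family of checkers is computable
-/

set_option autoImplicit false

namespace Pool.Agent.H729.STP3

open Pool.Agent.H724.ST

section basic

variable {α : Type} [Primcodable α]

theorem padd {f g : α → ℕ} (hf : Primrec f) (hg : Primrec g) : Primrec fun a => f a + g a :=
  Primrec.nat_add.comp hf hg

theorem pmul {f g : α → ℕ} (hf : Primrec f) (hg : Primrec g) : Primrec fun a => f a * g a :=
  Primrec.nat_mul.comp hf hg

theorem pdiv {f g : α → ℕ} (hf : Primrec f) (hg : Primrec g) : Primrec fun a => f a / g a :=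
  Primrec.nat_div.comp hf hg

theorem pmod {f g : α → ℕ} (hf : Primrec f) (hg : Primrec g) : Primrec fun a => f a % g a :=
  Primrec.nat_mod.comp hf hg

theorem penc {f : α → ℕ} {g : α → ℕ × ℕ × ℕ × ℕ} (hf : Primrec f) (hg : Primrec g) :
    Primrec fun a => enc (f a) (g a) := by
  unfold enc
  have h1 : Primrec fun a => (g a).1 := Primrec.fst.comp hg
  have h2 : Primrec fun a => (g a).2 := Primrec.snd.comp hg
  have h3 : Primrec fun a => (g a).2.1 := Primrec.fst.comp h2
  have h4 : Primrec fun a => (g a).2.2 := Primrec.snd.comp h2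
  have h5 : Primrec fun a => (g a).2.2.1 := Primrec.fst.comp h4
  have h6 : Primrec fun a => (g a).2.2.2 := Primrec.snd.comp h4
  exact padd h1 (pmul (Primrec.const 4) (padd h3 (pmul hf (padd h5 (pmul hf h6)))))

theorem pdec {f g : α → ℕ} (hf : Primrec f) (hg : Primrec g) :
    Primrec fun a => dec (f a) (g a) := by
  unfold dec
  have h1 : Primrec fun a => g a / 4 := pdiv hg (Primrec.const 4)
  have h2 : Primrec fun a => g a / 4 / f a := pdiv h1 hf
  exact (pmod hg (Primrec.const 4)).pair ((pmod h1 hf).pair ((pmod h2 hf).pair (pdiv h2 hf)))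

theorem peq {f g : α → ℕ} (hf : Primrec f) (hg : Primrec g) : PrimrecPred fun a => f a = g a :=
  Primrec.eq.comp hf hg

variable (D p : ℕ) (G : List ℕ) (T1 T2 : List Bool)

theorem pE {f : α → ℕ} (hf : Primrec f) : Primrec fun a => (CT D p G T1 T2 (f a)).E + 1 := by
  have h : (fun a => (CT D p G T1 T2 (f a)).E + 1) = fun a => p * (D * (f a + 2) + 1) + 1 := rfl
  rw [h]
  exact padd (pmul (Primrec.const p) (padd (pmul (Primrec.const D) (padd hf (Primrec.const 2)))
    (Primrec.const 1))) (Primrec.const 1)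

theorem pBB {f : α → ℕ} (hf : Primrec f) : Primrec fun a => BB (CT D p G T1 T2 (f a)) := by
  unfold BB
  have h := pE D p G T1 T2 hf
  exact pmul (Primrec.const 4) (pmul (pmul h h) h)

theorem pent (h1 : S_P1) {f x h : α → ℕ} (hf : Primrec f) (hx : Primrec x) (hh : Primrec h) :
    Primrec fun a => ent (CT D p G T1 T2 (f a)) (x a) (h a) := by
  unfold ent
  have hE := pE D p G T1 T2 hf
  have hB := pBB D p G T1 T2 hf
  have hx2 : Primrec fun a => x a / 2 := pdiv hx (Primrec.const 2)
  have hm : Primrec fun a => x a / 2 % BB (CT D p G T1 T2 (f a)) := pmod hx2 hB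
  have hd : Primrec fun a => x a / 2 / BB (CT D p G T1 T2 (f a)) := pdiv hx2 hB
  have hs : ∀ (b : Bool) {y : α → ℕ}, Primrec y → Primrec fun a =>
      enc ((CT D p G T1 T2 (f a)).E + 1)
        (scs (CT D p G T1 T2 (f a)) (dec ((CT D p G T1 T2 (f a)).E + 1) (y a)) b) := by
    intro b y hy
    refine penc hE ?_
    exact (h1 D p G T1 T2).comp (hf.pair ((pdec hE hy).pair (Primrec.const b)))
  refine Primrec.ite (peq (pmod hx (Primrec.const 2)) (Primrec.const 1)) (Primrec.const 1) ?_
  refine Primrec.ite (peq hh (Primrec.const 0))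
    (pmul (Primrec.const 2) (padd (hs false hm) (pmul hB hd))) ?_
  refine Primrec.ite (peq hh (Primrec.const 1))
    (pmul (Primrec.const 2) (padd hm (pmul hB (hs false hd)))) ?_
  refine Primrec.ite (peq hh (Primrec.const 2))
    (pmul (Primrec.const 2) (padd (hs true hm) (pmul hB hd))) ?_
  exact Primrec.ite (peq hh (Primrec.const 3))
    (pmul (Primrec.const 2) (padd hm (pmul hB (hs true hd)))) (Primrec.const 1)

end basic

theorem p3 (h1 : S_P1) (h2 : S_P2) : S_P3 := by
  intro D p G T1 T2 H
  apply Primrec.to_comp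
  have hB : Primrec fun n : ℕ => BB (CT D p G T1 T2 n) := pBB D p G T1 T2 Primrec.id
  have hBB : Primrec fun n : ℕ => BB (CT D p G T1 T2 n) * BB (CT D p G T1 T2 n) := pmul hB hB
  have ha : Primrec fun n : ℕ =>
      (List.range (2 * (BB (CT D p G T1 T2 n) * BB (CT D p G T1 T2 n)))).map fun x =>
        H.map fun h => ent (CT D p G T1 T2 n) x h := by
    refine Primrec.list_map (Primrec.list_range.comp (pmul (Primrec.const 2) hBB)) ?_
    refine Primrec.list_map (f := fun _ : ℕ × ℕ => H)
      (g := fun (r : ℕ × ℕ) (h : ℕ) => ent (CT D p G T1 T2 r.1) r.2 h) (Primrec.const H) ?_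
    exact pent D p G T1 T2 h1 (f := fun r : (ℕ × ℕ) × ℕ => r.1.1) (x := fun r => r.1.2)
      (h := fun r => r.2) (Primrec.fst.comp Primrec.fst) (Primrec.snd.comp Primrec.fst) Primrec.snd
  have hb : Primrec fun n : ℕ =>
      (List.range (BB (CT D p G T1 T2 n) * BB (CT D p G T1 T2 n))).filterMap fun x =>
        if acc (CT D p G T1 T2 n) (dec ((CT D p G T1 T2 n).E + 1) (x % BB (CT D p G T1 T2 n)))
          (dec ((CT D p G T1 T2 n).E + 1) (x / BB (CT D p G T1 T2 n))) = true then some (2 * x)
        else none := by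
    refine Primrec.listFilterMap (Primrec.list_range.comp hBB) ?_
    have hf : Primrec fun r : ℕ × ℕ => r.1 := Primrec.fst
    have hE := pE D p G T1 T2 hf
    have hB' := pBB D p G T1 T2 hf
    have hacc : Primrec fun r : ℕ × ℕ => acc (CT D p G T1 T2 r.1)
        (dec ((CT D p G T1 T2 r.1).E + 1) (r.2 % BB (CT D p G T1 T2 r.1)))
        (dec ((CT D p G T1 T2 r.1).E + 1) (r.2 / BB (CT D p G T1 T2 r.1))) :=
      (h2 D p G T1 T2).comp (hf.pair ((pdec hE (pmod Primrec.snd hB')).pair
        (pdec hE (pdiv Primrec.snd hB'))))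
    exact Primrec.ite (Primrec.eq.comp hacc (Primrec.const true))
      (Primrec.option_some.comp (pmul (Primrec.const 2) Primrec.snd)) (Primrec.const none)
  exact ha.pair hb

end Pool.Agent.H729.STP3
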