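import Pool.Agent.H724.ST.Stm

/-!
# ST-P40: mixed radix numbers of scanner states (by helper603)
-/

set_option autoImplicit false

namespace Pool.Agent.H603.ST

open Pool.Agent.H724.ST

theorem p40 : S_P40 := by
  refine ⟨?_, ?_, ?_⟩
  · rintro A ⟨t, al, l, g⟩ ⟨h1, h2, h3, h4⟩
    simp only at h1 h2 h3 h4
    have hA : 0 < A := by omega
    refine ⟨?_, ?_⟩
    · unfold enc
      simp only
      have e1 : l + A * g < A * A := by nlinarith
      have e2 : al + A * (l + A * g) < A * (A * A) := by nlinarith
      have e3 : A * (A * A) = A * A * A := by ring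
      omega
    · unfold enc dec
      simp only
      have e0 : (t + 4 * (al + A * (l + A * g))) / 4 = al + A * (l + A * g) := by omega
      have e0' : (t + 4 * (al + A * (l + A * g))) % 4 = t := by omega
      have e1 : (al + A * (l + A * g)) % A = al := by
        rw [Nat.add_mul_mod_self_left, Nat.mod_eq_of_lt h2]
      have e2 : (al + A * (l + A * g)) / A = l + A * g := by
        rw [Nat.add_mul_div_left _ _ hA, Nat.div_eq_of_lt h2, zero_add]
      have e3 : (l + A * g) % A = l := by
        rw [Nat.add_mul_mod_self_left, Nat.mod_eq_of_lt h3]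
      have e4 : (l + A * g) / A = g := by
        rw [Nat.add_mul_div_left _ _ hA, Nat.div_eq_of_lt h3, zero_add]
      rw [e0, e0', e1, e2, e3, e4]
  · intro A x hA hx
    refine ⟨⟨Nat.mod_lt _ (by norm_num), Nat.mod_lt _ hA, Nat.mod_lt _ hA, ?_⟩, ?_⟩
    · unfold dec
      simp only
      rw [Nat.div_lt_iff_lt_mul hA, Nat.div_lt_iff_lt_mul hA, Nat.div_lt_iff_lt_mul (by norm_num)]
      calc x < 4 * (A * A * A) := hx
        _ = A * A * A * 4 := by ring
    · unfold enc dec
      simp only
      rw [Nat.mod_add_div, Nat.mod_add_div, Nat.mod_add_div]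
  · rintro C ⟨t, al, l, g⟩ b ⟨h1, h2, h3, h4⟩
    simp only at h1 h2 h3 h4
    unfold scs
    simp only
    split_ifs <;> refine ⟨?_, ?_, ?_, ?_⟩ <;> simp only <;> omega

end Pool.Agent.H603.ST
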