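import Pool.Agent.H724.ST.Stm

/-!
# ST-P4a: the code is an automaton over the trace monoid
-/

set_option autoImplicit false

namespace Pool.Agent.H747.STP4a

open Pool.Agent.H724.ST

/-- One component after one letter. -/
def st (C : Chk) (b : Bool) (y : ℕ) : ℕ := enc (C.E + 1) (scs C (dec (C.E + 1) y) b)

/-- The state of a pair. -/
def cell (B i j : ℕ) : ℕ := 2 * (i + B * j)

/-- The number of a letter. -/
def num {k : ℕ} (a b c d e : Fin k) : ℕ :=
  if e = a then 0 else if e = b then 1 else if e = c then 2 else if e = d then 3 else 4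

theorem BB_pos (C : Chk) : 0 < BB C := by unfold BB; positivity

theorem st_lt (h1 : S_P40) (C : Chk) (b : Bool) (y : ℕ) (hy : y < BB C) : st C b y < BB C := by
  obtain ⟨hA, hB, hC⟩ := h1
  exact (hA (C.E + 1) _ (hC C _ b (hB (C.E + 1) y (Nat.succ_pos _) hy).1)).1

theorem cell_lt (B i j : ℕ) (hi : i < B) (hj : j < B) : cell B i j < 2 * (B * B) := by
  unfold cell
  have h : i + B * j < B * B := by
    calc i + B * j < B + B * j := by omega
      _ = B * (j + 1) := by ring
      _ ≤ B * B := Nat.mul_le_mul_left B hj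
  omega

theorem cell_mod2 (B i j : ℕ) : cell B i j % 2 = 0 := by unfold cell; omega

theorem cell_div2 (B i j : ℕ) : cell B i j / 2 = i + B * j := by unfold cell; omega

theorem cell_fst (B i j : ℕ) (hi : i < B) : cell B i j / 2 % B = i := by
  rw [cell_div2, Nat.add_mul_mod_self_left, Nat.mod_eq_of_lt hi]

theorem cell_snd (B i j : ℕ) (hi : i < B) : cell B i j / 2 / B = j := by
  rw [cell_div2, Nat.add_mul_div_left _ _ (by omega : 0 < B), Nat.div_eq_of_lt hi, Nat.zero_add]

theorem ent_odd (C : Chk) (x h : ℕ) (hx : x % 2 = 1) : ent C x h = 1 := by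
  unfold ent; rw [if_pos hx]

theorem ent_four (C : Chk) (x : ℕ) : ent C x 4 = 1 := by
  unfold ent; simp

theorem ent_cell0 (C : Chk) (i j : ℕ) (hi : i < BB C) :
    ent C (cell (BB C) i j) 0 = cell (BB C) (st C false i) j := by
  unfold ent
  rw [cell_mod2, cell_fst _ _ _ hi, cell_snd _ _ _ hi]
  simp [cell, st]

theorem ent_cell1 (C : Chk) (i j : ℕ) (hi : i < BB C) :
    ent C (cell (BB C) i j) 1 = cell (BB C) i (st C false j) := by
  unfold ent
  rw [cell_mod2, cell_fst _ _ _ hi, cell_snd _ _ _ hi]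
  simp [cell, st]

theorem ent_cell2 (C : Chk) (i j : ℕ) (hi : i < BB C) :
    ent C (cell (BB C) i j) 2 = cell (BB C) (st C true i) j := by
  unfold ent
  rw [cell_mod2, cell_fst _ _ _ hi, cell_snd _ _ _ hi]
  simp [cell, st]

theorem ent_cell3 (C : Chk) (i j : ℕ) (hi : i < BB C) :
    ent C (cell (BB C) i j) 3 = cell (BB C) i (st C true j) := by
  unfold ent
  rw [cell_mod2, cell_fst _ _ _ hi, cell_snd _ _ _ hi]
  simp [cell, st]

theorem num_cases {k : ℕ} (a b c d e : Fin k) :
    (e = a ∧ num a b c d e = 0) ∨ (e = b ∧ num a b c d e = 1) ∨ (e = c ∧ num a b c d e = 2) ∨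
      (e = d ∧ num a b c d e = 3) ∨ num a b c d e = 4 := by
  unfold num
  by_cases h1 : e = a
  · left; exact ⟨h1, by rw [if_pos h1]⟩
  · by_cases h2 : e = b
    · right; left; exact ⟨h2, by rw [if_neg h1, if_pos h2]⟩
    · by_cases h3 : e = c
      · right; right; left; exact ⟨h3, by rw [if_neg h1, if_neg h2, if_pos h3]⟩
      · by_cases h4 : e = d
        · right; right; right; left
          exact ⟨h4, by rw [if_neg h1, if_neg h2, if_neg h3, if_pos h4]⟩
        · right; right; right; right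
          rw [if_neg h1, if_neg h2, if_neg h3, if_neg h4]

/-- Every state is odd or a cell. -/
theorem exists_cell (C : Chk) (x : ℕ) (hx : x < 2 * (BB C * BB C)) (h2 : x % 2 ≠ 1) :
    ∃ i j, i < BB C ∧ j < BB C ∧ x = cell (BB C) i j := by
  have hB := BB_pos C
  refine ⟨x / 2 % BB C, x / 2 / BB C, Nat.mod_lt _ hB, ?_, ?_⟩
  · apply Nat.div_lt_of_lt_mul
    omega
  · unfold cell
    rw [Nat.mod_add_div]
    omega

theorem one_lt (C : Chk) : 1 < 2 * (BB C * BB C) := by
  have hB := BB_pos C
  have : 0 < BB C * BB C := Nat.mul_pos hB hB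
  omega

theorem ent_lt (h1 : S_P40) (C : Chk) (x h : ℕ) (hx : x < 2 * (BB C * BB C)) (hh : h < 5) :
    ent C x h < 2 * (BB C * BB C) := by
  by_cases h2 : x % 2 = 1
  · rw [ent_odd C x h h2]; exact one_lt C
  · obtain ⟨i, j, hi, hj, rfl⟩ := exists_cell C x hx h2
    have : h = 0 ∨ h = 1 ∨ h = 2 ∨ h = 3 ∨ h = 4 := by omega
    rcases this with rfl | rfl | rfl | rfl | rfl
    · rw [ent_cell0 C i j hi]; exact cell_lt _ _ _ (st_lt h1 C _ _ hi) hj
    · rw [ent_cell1 C i j hi]; exact cell_lt _ _ _ hi (st_lt h1 C _ _ hj)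
    · rw [ent_cell2 C i j hi]; exact cell_lt _ _ _ (st_lt h1 C _ _ hi) hj
    · rw [ent_cell3 C i j hi]; exact cell_lt _ _ _ hi (st_lt h1 C _ _ hj)
    · rw [ent_four]; exact one_lt C

/-- Commutation of the letters of numbers `h ∈ {0, 2}` and `h' ∈ {1, 3}`. -/
theorem ent_comm (h1 : S_P40) (C : Chk) (x h h' : ℕ) (hx : x < 2 * (BB C * BB C))
    (hh : h = 0 ∨ h = 2) (hh' : h' = 1 ∨ h' = 3) : ent C (ent C x h) h' = ent C (ent C x h') h := by
  by_cases h2 : x % 2 = 1
  · rw [ent_odd C x h h2, ent_odd C x h' h2, ent_odd C 1 h rfl, ent_odd C 1 h' rfl]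
  · obtain ⟨i, j, hi, hj, rfl⟩ := exists_cell C x hx h2
    rcases hh with rfl | rfl <;> rcases hh' with rfl | rfl
    · rw [ent_cell0 C i j hi, ent_cell1 C i j hi, ent_cell1 C _ j (st_lt h1 C _ _ hi),
        ent_cell0 C i _ hi]
    · rw [ent_cell0 C i j hi, ent_cell3 C i j hi, ent_cell3 C _ j (st_lt h1 C _ _ hi),
        ent_cell0 C i _ hi]
    · rw [ent_cell2 C i j hi, ent_cell1 C i j hi, ent_cell1 C _ j (st_lt h1 C _ _ hi),
        ent_cell2 C i _ hi]
    · rw [ent_cell2 C i j hi, ent_cell3 C i j hi, ent_cell3 C _ j (st_lt h1 C _ _ hi),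
        ent_cell2 C i _ hi]

theorem ent_four_comm (C : Chk) (x h : ℕ) : ent C (ent C x h) 4 = ent C (ent C x 4) h := by
  rw [ent_four, ent_four, ent_odd C 1 h rfl]

theorem length_code {k : ℕ} (C : Chk) (a b c d : Fin k) :
    (codeC (HL a b c d) C).1.length = 2 * (BB C * BB C) := by
  simp [codeC]

theorem next_code {k : ℕ} (C : Chk) (a b c d e : Fin k) (x : ℕ) (hx : x < 2 * (BB C * BB C)) :
    next (codeC (HL a b c d) C) x e = ent C x (num a b c d e) := by
  have hrow : (codeC (HL a b c d) C).1.getD x [] = (HL a b c d).map fun h => ent C x h := by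
    rw [List.getD_eq_getElem _ _ (by rw [length_code C a b c d]; exact hx)]
    simp [codeC]
  unfold next
  rw [hrow]
  have hl : e.val < ((HL a b c d).map fun h => ent C x h).length := by
    simp [HL]
  rw [List.getD_eq_getElem _ _ hl]
  simp [HL, num]

theorem num_lt {k : ℕ} (a b c d e : Fin k) : num a b c d e < 5 := by
  rcases num_cases a b c d e with h | h | h | h | h <;> omega

theorem p4a (h1 : S_P40) : S_P4a := by
  intro C k I hs hi a b c d h4
  obtain ⟨hac, hbd, hab, hbc, hcd, hda, hnac, hnbd⟩ := h4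
  have hlen := length_code C a b c d
  refine ⟨by rw [hlen]; have := one_lt C; omega, ?_, ?_⟩
  · intro q hq e
    rw [hlen] at hq ⊢
    rw [next_code C a b c d e q hq]
    exact ent_lt h1 C q _ hq (num_lt a b c d e)
  · intro q hq e f hef
    rw [hlen] at hq
    have he := ent_lt h1 C q _ hq (num_lt a b c d e)
    have hf := ent_lt h1 C q _ hq (num_lt a b c d f)
    rw [next_code C a b c d e q hq, next_code C a b c d f q hq, next_code C a b c d f _ he,
      next_code C a b c d e _ hf]
    have hnca : ¬ I c a := fun h => hnac (hs _ _ h)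
    have hndb : ¬ I d b := fun h => hnbd (hs _ _ h)
    rcases num_cases a b c d e with ⟨h, he'⟩ | ⟨h, he'⟩ | ⟨h, he'⟩ | ⟨h, he'⟩ | he' <;>
    rcases num_cases a b c d f with ⟨h', hf'⟩ | ⟨h', hf'⟩ | ⟨h', hf'⟩ | ⟨h', hf'⟩ | hf' <;>
    first
    | (rw [he', hf']; done)
    | (exfalso; rw [h, h'] at hef; first
        | exact hi _ hef
        | exact hnac hef
        | exact hnca hef
        | exact hnbd hef
        | exact hndb hef)
    | (rw [he', hf']; first
        | exact ent_four_comm C q _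
        | exact (ent_four_comm C q _).symm
        | exact ent_comm h1 C q _ _ hq (by omega) (by omega)
        | exact (ent_comm h1 C q _ _ hq (by omega) (by omega)).symm)

end Pool.Agent.H747.STP4a
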