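import Pool.Agent.H724.ST.Stm

set_option autoImplicit false

/-!
# Star problem: no immortal pair gives a recognizable star (S_REC)
-/

namespace Pool.Agent.H903.STREC

open Pool.Agent.H724.ST

theorem reg_of {T : Type} (A : Set (List Bool)) (f : List Bool → T) (hf : (Set.range f).Finite)
    (F : T → Set (List Bool)) (h : ∀ v, {z | v ++ z ∈ A} = F (f v)) : Reg A := by
  refine (hf.image F).subset ?_
  rintro _ ⟨v, rfl⟩
  exact ⟨f v, ⟨v, rfl⟩, (h v).symm⟩

theorem reg_univ : Reg Set.univ := by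
  refine reg_of _ (fun _ => ()) (Set.toFinite _) (fun _ => Set.univ) fun v => ?_
  ext z
  simp

theorem sc_append (C : Chk) (u v : List Bool) : sc C (u ++ v) = v.foldl (scs C) (sc C u) := by
  simp [sc, List.foldl_append]

theorem reg_not_ok (C : Chk) (h : (Set.range (sc C)).Finite) : Reg {u | ¬ OK C u} := by
  refine reg_of _ (sc C) h (fun s => {z | ¬ ((z.foldl (scs C) s).1 ≠ 3)}) fun v => ?_
  ext z
  show ¬ OK C (v ++ z) ↔ ¬ ((z.foldl (scs C) (sc C v)).1 ≠ 3)
  rw [OK, sc_append]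

/-- `OK` words with many letters `c` and given class of the first run -/
def BR (C : Chk) (T r : ℕ) : Set (List Bool) :=
  {u | OK C u ∧ T + 2 ≤ u.count true ∧ (sc C u).2.1 % (C.N + 1) = r}

theorem reg_BR (C : Chk) (h : (Set.range (sc C)).Finite) (T r : ℕ) : Reg (BR C T r) := by
  have hf : (Set.range fun u : List Bool => (sc C u, min (u.count true) (T + 2))).Finite := by
    refine (h.prod (Set.finite_Iic (T + 2))).subset ?_
    rintro _ ⟨u, rfl⟩
    exact ⟨⟨u, rfl⟩, Set.mem_Iic.2 (min_le_right _ _)⟩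
  refine reg_of _ _ hf (fun s => {z | (z.foldl (scs C) s.1).1 ≠ 3 ∧ T + 2 ≤ s.2 + z.count true ∧
    (z.foldl (scs C) s.1).2.1 % (C.N + 1) = r}) fun v => ?_
  ext z
  show OK C (v ++ z) ∧ T + 2 ≤ (v ++ z).count true ∧ (sc C (v ++ z)).2.1 % (C.N + 1) = r ↔
    (z.foldl (scs C) (sc C v)).1 ≠ 3 ∧ T + 2 ≤ min (v.count true) (T + 2) + z.count true ∧
    (z.foldl (scs C) (sc C v)).2.1 % (C.N + 1) = r
  rw [OK, sc_append, List.count_append]
  have : T + 2 ≤ v.count true + z.count true ↔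
      T + 2 ≤ min (v.count true) (T + 2) + z.count true := by omega
  rw [this]

theorem decomp (u : List Bool) (h : true ∈ u) : ∃ al z, u = rn al ++ true :: z := by
  induction u with
  | nil => simp at h
  | cons b u ih =>
    cases b with
    | true => exact ⟨0, u, by simp [rn]⟩
    | false =>
      obtain ⟨al, z, rfl⟩ := ih (by simpa using h)
      exact ⟨al + 1, z, by simp [rn, List.replicate_succ]⟩

theorem single {L : List Bool → List Bool → Prop} {u v : List Bool} (h : L u v) : StP L u v := by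
  have := StP.cons h StP.nil
  simpa using this

theorem mem_of_count (T : ℕ) (u : List Bool) (h : T + 2 ≤ u.count true) : true ∈ u :=
  List.count_pos_iff.1 (by omega)

theorem rec_ (h1 : S_SC) (h2 : S_SCF) (_h3 : S_OK) (h4 : S_SH) (h5 : S_PC) (h6 : S_REC1)
    (h7 : S_EQ) (h8 : S_SEC) (h9 : S_MZ) : S_REC := by
  intro C hC T hT
  obtain ⟨-, -, -, -, -, -, hsc, -⟩ := h1 C
  obtain ⟨hfin, hMez⟩ := h2 C
  obtain ⟨hor, hprod, huni, hsing, -⟩ := h9
  have hreg := reg_not_ok C hfin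
  have hsec := h8 (Lp C) hMez
  have key : StP (Lp C) = fun u v =>
      (((((u ∈ {u | ¬ OK C u} ∧ v ∈ Set.univ) ∨ (u ∈ Set.univ ∧ v ∈ {u | ¬ OK C u})) ∨
      (∃ u0 ∈ {u : List Bool | OK C u ∧ u.count true < T + 2},
        u ∈ {u | u = u0} ∧ v ∈ {v | StP (Lp C) u0 v})) ∨
      (∃ v0 ∈ {u : List Bool | OK C u ∧ u.count true < T + 2},
        u ∈ {v | StP (Lp C) v v0} ∧ v ∈ {u | u = v0})) ∨
      (∃ r ∈ Set.Ioo 0 (C.N + 1), u ∈ BR C T r ∧ v ∈ BR C T r)) := by
    funext u v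
    apply propext
    constructor
    · intro h
      by_cases hu : OK C u
      swap
      · exact Or.inl (Or.inl (Or.inl (Or.inl ⟨hu, trivial⟩)))
      by_cases hv : OK C v
      swap
      · exact Or.inl (Or.inl (Or.inl (Or.inr ⟨trivial, hv⟩)))
      by_cases hcu : u.count true < T + 2
      · exact Or.inl (Or.inl (Or.inr ⟨u, ⟨hu, hcu⟩, rfl, h⟩))
      by_cases hcv : v.count true < T + 2
      · exact Or.inl (Or.inr ⟨v, ⟨hv, hcv⟩, h, rfl⟩)
      obtain ⟨al, z, hz⟩ := decomp u (mem_of_count T u (by omega))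
      obtain ⟨be, z', hz'⟩ := decomp v (mem_of_count T v (by omega))
      obtain ⟨he1, he2⟩ := (h7 C hC u v h hu hv).1 al z be z' hz hz'
      obtain ⟨-, hu1, -⟩ := hsc u al z hu hz
      obtain ⟨-, hv1, -⟩ := hsc v be z' hv hz'
      refine Or.inr ⟨al % (C.N + 1), ⟨Nat.pos_of_ne_zero he2, Nat.mod_lt _ (Nat.succ_pos _)⟩,
        ⟨hu, by omega, by rw [hu1]⟩, ⟨hv, by omega, by rw [hv1, he1]⟩⟩
    · rintro ((((⟨hu, -⟩ | ⟨-, hv⟩) | ⟨u0, -, hu0, h⟩) | ⟨v0, -, h, hv0⟩) | ⟨r, hr, ⟨a1, a2, a3⟩, b1, b2, b3⟩)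
      · exact single ((h5 C hC).2.1 u v (Or.inl hu))
      · exact single ((h5 C hC).2.1 u v (Or.inr hv))
      · rw [show u = u0 from hu0]
        exact h
      · rw [show v = v0 from hv0]
        exact h
      · obtain ⟨al, z, hz⟩ := decomp u (mem_of_count T u a2)
        obtain ⟨be, z', hz'⟩ := decomp v (mem_of_count T v b2)
        obtain ⟨-, hu1, -⟩ := hsc u al z a1 hz
        obtain ⟨-, hv1, -⟩ := hsc v be z' b1 hz'
        rw [hu1] at a3
        rw [hv1] at b3
        have hr0 := hr.1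
        exact h6 C hC T hT u v a1 b1 a2 b2 al be z z' hz hz' (by rw [a3, b3])
          (by rw [a3]; omega)
  rw [key]
  refine hor _ _ (hor _ _ (hor _ _ (hor _ _ (hprod _ _ hreg reg_univ) (hprod _ _ reg_univ hreg))
    ?_) ?_) ?_
  · exact huni (List Bool) _ (h4 C (T + 2)) (fun u0 u v => u ∈ {u | u = u0} ∧ v ∈ {v | StP (Lp C) u0 v})
      fun u0 _ => hprod _ _ (hsing u0) (hsec u0).1
  · exact huni (List Bool) _ (h4 C (T + 2)) (fun v0 u v => u ∈ {v | StP (Lp C) v v0} ∧ v ∈ {u | u = v0})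
      fun v0 _ => hprod _ _ (hsec v0).2 (hsing v0)
  · exact huni ℕ _ (Set.finite_Ioo 0 (C.N + 1)) (fun r u v => u ∈ BR C T r ∧ v ∈ BR C T r)
      fun r _ => hprod _ _ (reg_BR C hfin T r) (reg_BR C hfin T r)

end Pool.Agent.H903.STREC
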