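import Pool.Agent.H724.ST.Stm

set_option autoImplicit false

namespace Pool.Agent.H404.ST

open Pool.Agent.H724.ST

theorem rn_cancel : ∀ (a b : ℕ) (z z' : List Bool), rn a ++ true :: z = rn b ++ true :: z' →
    a = b ∧ z = z'
  | 0, 0, z, z', h => by
      simp only [rn, List.replicate_zero, List.nil_append, List.cons.injEq, true_and] at h
      exact ⟨rfl, h⟩
  | 0, b + 1, z, z', h => by
      simp [rn, List.replicate_succ] at h
  | a + 1, 0, z, z', h => by
      simp [rn, List.replicate_succ] at h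
  | a + 1, b + 1, z, z', h => by
      have h' : rn a ++ true :: z = rn b ++ true :: z' := by
        simpa [rn, List.replicate_succ] using h
      obtain ⟨h1, h2⟩ := rn_cancel a b z z' h'
      exact ⟨by omega, h2⟩

theorem blks_prefix (C : Chk) (x : ℕ → ℕ) (m : ℕ) : ∀ T : ℕ, m ≤ T →
    ∃ r, blks C x T = blks C x m ++ r := by
  intro T hT
  induction T, hT using Nat.le_induction with
  | base => exact ⟨[], by simp⟩
  | succ T _ ih =>
    obtain ⟨r, hr⟩ := ih
    exact ⟨r ++ blk C (x T), by rw [blks, hr, List.append_assoc]⟩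

theorem cons_mono (C : Chk) (x : ℕ → ℕ) {m T : ℕ} (h : m ≤ T) (hx : Cons C x T) : Cons C x m :=
  ⟨fun i hi => hx.1 i (by omega), fun i hi => hx.2 i (by omega)⟩

theorem shape (C : Chk) (al : ℕ) (h : al ≤ C.E) (h0 : al % (C.N + 1) ≠ 0) :
    1 ≤ C.N + 1 - al % (C.N + 1) ∧ C.N + 1 - al % (C.N + 1) ≤ C.N ∧ al / (C.N + 1) < C.p ∧
      (al / (C.N + 1) + 1) * (C.N + 1) - (C.N + 1 - al % (C.N + 1)) = al := by
  have h1 : al % (C.N + 1) < C.N + 1 := Nat.mod_lt _ (by omega)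
  have h2 := Nat.div_add_mod al (C.N + 1)
  refine ⟨by omega, by omega, ?_, ?_⟩
  · rw [Nat.div_lt_iff_lt_mul (by omega)]
    refine lt_of_le_of_ne h ?_
    intro h3
    apply h0
    rw [h3]
    show (C.p * (C.N + 1)) % (C.N + 1) = 0
    exact Nat.mul_mod_left _ _
  · have h3 : (al / (C.N + 1) + 1) * (C.N + 1) = (C.N + 1) * (al / (C.N + 1)) + (C.N + 1) := by
      ring
    omega

/-- `ST-REC1`. -/
theorem rec1 (h1 : S_DEC) (h2 : S_PC) (h3 : S_VIO) : S_REC1 := by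
  intro C hC T hM u v hu hv hcu hcv al be z z' huz hvz hmod hne
  obtain ⟨al', x, w, hal, hx, hu'⟩ := h1 C T u hu hcu
  obtain ⟨be', y, w', hbe, hy, hv'⟩ := h1 C T v hv hcv
  obtain ⟨e1, -⟩ := rn_cancel _ _ _ _ (hu'.symm.trans huz)
  obtain ⟨e2, -⟩ := rn_cancel _ _ _ _ (hv'.symm.trans hvz)
  subst e1
  subst e2
  obtain ⟨i, j, t, hi, hj, hrun⟩ := hM x y hx hy
  obtain ⟨r, hr⟩ := blks_prefix C x (i + t) T hi
  obtain ⟨r', hr'⟩ := blks_prefix C y (j + t) T hj
  have hvio := h3 C hC x y i j t (cons_mono C x hi hx) (cons_mono C y hj hy) hrun (r ++ w)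
    (r' ++ w')
  obtain ⟨s1, s2, s3, s4⟩ := shape C al' hal hne
  obtain ⟨t1, t2, t3, t4⟩ := shape C be' hbe (hmod ▸ hne)
  have hpc := (h2 C hC).2.2.1 (C.N + 1 - al' % (C.N + 1)) (al' / (C.N + 1)) (be' / (C.N + 1)) 1
    s1 s2 s3 t3 le_rfl (Or.inl rfl)
  rw [s4, hmod, t4] at hpc
  have := StP.cons hpc hvio
  have e3 : u = (rn al' ++ true :: rn 1) ++ (blks C x (i + t) ++ (r ++ w)) := by
    rw [hu', hr]
    simp [rn]
  have e4 : v = (rn be' ++ true :: rn 1) ++ (blks C y (j + t) ++ (r' ++ w')) := by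
    rw [hv', hr']
    simp [rn]
  rw [e3, e4]
  exact this

end Pool.Agent.H404.ST
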