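import Pool.Agent.H724.ST.Stm

/-!
# The scanner has finitely many values (ST-SCF, by helper967 for helper724)
-/

set_option autoImplicit false

namespace Pool.Agent.H967.ST

open Pool.Agent.H724.ST

theorem range_fin (h1 : S_SC) (C : Chk) : (Set.range (sc C)).Finite := by
  obtain ⟨ha, hb, hc, hd, -⟩ := h1 C
  have hfin : ((Set.Iic 3) ×ˢ ((Set.Iic C.E) ×ˢ ((Set.Iic C.E) ×ˢ (Set.Iic C.E))) :
      Set (ℕ × ℕ × ℕ × ℕ)).Finite :=
    (Set.finite_Iic 3).prod ((Set.finite_Iic _).prod ((Set.finite_Iic _).prod (Set.finite_Iic _)))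
  refine hfin.subset ?_
  rintro _ ⟨u, rfl⟩
  obtain ⟨h3, h3'⟩ := hd u
  simp only [Set.mem_prod, Set.mem_Iic]
  refine ⟨h3, ?_⟩
  generalize hs : sc C u = s at h3 h3' ⊢
  obtain ⟨t, al, l, g⟩ := s
  have ht : t = 0 ∨ t = 1 ∨ t = 2 ∨ t = 3 := by
    have : t ≤ 3 := h3
    omega
  rcases ht with rfl | rfl | rfl | rfl
  · obtain ⟨-, h5, h6, h7⟩ := ha u al l g hs
    exact ⟨h5, h6.le.trans (Nat.zero_le _), h7.le.trans (Nat.zero_le _)⟩
  · obtain ⟨-, h5, h6, h7⟩ := hb u al l g hs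
    exact ⟨h5, h7.le.trans (Nat.zero_le _), h6⟩
  · obtain ⟨h5, h6, h7, -⟩ := hc u al l g hs
    exact ⟨h5, h7, h6⟩
  · have h5 := h3' rfl
    rw [Prod.mk.injEq, Prod.mk.injEq, Prod.mk.injEq] at h5
    obtain ⟨-, h6, h7, h8⟩ := h5
    exact ⟨h6.le.trans (Nat.zero_le _), h7.le.trans (Nat.zero_le _), h8.le.trans (Nat.zero_le _)⟩

theorem sc_append (C : Chk) (u v : List Bool) : sc C (u ++ v) = v.foldl (scs C) (sc C u) :=
  List.foldl_append

theorem scf (h1 : S_SC) : S_SCF := by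
  intro C
  have hf := range_fin h1 C
  refine ⟨hf, ?_, ?_⟩
  · refine (hf.image fun s => {r : List Bool × List Bool |
      acc C (r.1.foldl (scs C) s) (sc C r.2) = true}).subset ?_
    rintro _ ⟨u, rfl⟩
    refine ⟨sc C u, ⟨u, rfl⟩, ?_⟩
    ext r
    show acc C (r.1.foldl (scs C) (sc C u)) (sc C r.2) = true ↔
      acc C (sc C (u ++ r.1)) (sc C r.2) = true
    rw [sc_append]
  · refine (hf.image fun s => {r : List Bool × List Bool |
      acc C (sc C r.1) (r.2.foldl (scs C) s) = true}).subset ?_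
    rintro _ ⟨v, rfl⟩
    refine ⟨sc C v, ⟨v, rfl⟩, ?_⟩
    ext r
    show acc C (sc C r.1) (r.2.foldl (scs C) (sc C v)) = true ↔
      acc C (sc C r.1) (sc C (v ++ r.2)) = true
    rw [sc_append]

end Pool.Agent.H967.ST
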