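import Pool.Agent.H724.ST.Stm

/-! Project ST (helper724), parts TR0 and TR1: from the trace monoid to relations of words. -/

set_option autoImplicit false

namespace Pool.Agent.H596.STtr

open Pool.Agent.H724.ST

theorem fin_det {α β X : Type} (g : α → β) (F : α → Set X) (hg : (Set.range g).Finite)
    (h : ∀ a b, g a = g b → F a = F b) : (Set.range F).Finite := by
  have hf : Function.FactorsThrough F g := fun a b hab => h a b hab
  have e : F = (Function.extend g F fun _ => ∅) ∘ g := by
    funext a
    exact (hf.extend_apply (fun _ => ∅) a).symm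
  rw [e, Set.range_comp]
  exact hg.image _

theorem stp_append {L : List Bool → List Bool → Prop} {u v u' v' : List Bool} (h : StP L u v) (h' : StP L u' v') :
    StP L (u ++ u') (v ++ v') := by
  induction h with
  | nil => simpa using h'
  | cons hp _ ih =>
    rw [List.append_assoc, List.append_assoc]
    exact StP.cons hp ih

theorem stp_one {L : List Bool → List Bool → Prop} {u v : List Bool} (h : L u v) : StP L u v := by
  have := StP.cons h (StP.nil (L := L))
  rwa [List.append_nil, List.append_nil] at this

section tr

variable {k : ℕ} {I : Fin k → Fin k → Prop}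

theorem trace_append (w w' : List (Fin k)) : trace k I (w ++ w') = trace k I w * trace k I w' := by
  unfold trace
  rw [FreeMonoid.ofList_append, Con.coe_mul]

theorem trace_nil : trace k I [] = 1 := rfl

theorem trace_cons (e : Fin k) (w : List (Fin k)) : trace k I (e :: w) = trace k I [e] * trace k I w := by
  rw [← trace_append, List.singleton_append]

theorem trace_comm {e f : Fin k} (h : I e f) : Commute (trace k I [e]) (trace k I [f]) := by
  unfold trace
  show ((FreeMonoid.ofList [e] : FreeMonoid (Fin k)) : (traceCon k I).Quotient) *
    ((FreeMonoid.ofList [f] : FreeMonoid (Fin k)) : (traceCon k I).Quotient) =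
    ((FreeMonoid.ofList [f] : FreeMonoid (Fin k)) : (traceCon k I).Quotient) *
    ((FreeMonoid.ofList [e] : FreeMonoid (Fin k)) : (traceCon k I).Quotient)
  rw [← Con.coe_mul, ← Con.coe_mul, Con.eq]
  exact ConGen.Rel.of _ _ ⟨e, f, h, rfl, rfl⟩

/-- the embedding of words over two letters -/
def io (a c : Fin k) (u : List Bool) : List (Fin k) := u.map fun b => if b = true then c else a

theorem io_append (a c : Fin k) (u v : List Bool) : io a c (u ++ v) = io a c u ++ io a c v := List.map_append

theorem letter_comm {e b d : Fin k} (h1 : I e b) (h2 : I e d) (v : List Bool) :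
    Commute (trace k I [e]) (trace k I (io b d v)) := by
  induction v with
  | nil => exact Commute.one_right _
  | cons y v ih =>
    have e1 : trace k I (io b d (y :: v)) = trace k I [if y = true then d else b] * trace k I (io b d v) :=
      trace_cons _ _
    rw [e1]
    refine Commute.mul_right (trace_comm ?_) ih
    cases y <;> simpa

theorem io_comm {a b c d : Fin k} (h1 : I a b) (h2 : I a d) (h3 : I c b) (h4 : I c d) (u v : List Bool) :
    Commute (trace k I (io a c u)) (trace k I (io b d v)) := by
  induction u with
  | nil => exact Commute.one_left _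
  | cons x u ih =>
    have e1 : trace k I (io a c (x :: u)) = trace k I [if x = true then c else a] * trace k I (io a c u) :=
      trace_cons _ _
    rw [e1]
    refine Commute.mul_left (letter_comm ?_ ?_ v) ih
    · cases x <;> simpa
    · cases x <;> simpa

/-- the letters of `w` are among the four letters -/
def Let4 (a b c d : Fin k) (w : List (Fin k)) : Prop := ∀ e ∈ w, e = a ∨ e = b ∨ e = c ∨ e = d

theorem trace_norm (hI : ∀ e f, I e f → I f e) (hi : ∀ e, ¬ I e e) {a b c d : Fin k} (h4 : IsC4 I a b c d)
    (w : List (Fin k)) (hw : Let4 a b c d w) :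
    trace k I w = trace k I (io a c (w.filterMap (rd a c))) * trace k I (io b d (w.filterMap (rd b d))) := by
  obtain ⟨hac, hbd, hab, hbc, hcd, hda, -, -⟩ := h4
  have nab : a ≠ b := by rintro rfl; exact hi _ hab
  have nbc : b ≠ c := by rintro rfl; exact hi _ hbc
  have ncd : c ≠ d := by rintro rfl; exact hi _ hcd
  have nda : d ≠ a := by rintro rfl; exact hi _ hda
  induction w with
  | nil => exact (mul_one _).symm
  | cons e w ih =>
    have ih' := ih fun e he => hw e (List.mem_cons_of_mem _ he)
    rw [trace_cons, ih']
    have hL : ∀ x : Bool, trace k I (io a c (x :: w.filterMap (rd a c))) =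
      trace k I [if x = true then c else a] * trace k I (io a c (w.filterMap (rd a c))) := fun x => trace_cons _ _
    have hR : ∀ x : Bool, trace k I (io b d (x :: w.filterMap (rd b d))) =
      trace k I [if x = true then d else b] * trace k I (io b d (w.filterMap (rd b d))) := fun x => trace_cons _ _
    rcases hw e (List.mem_cons_self) with rfl | rfl | rfl | rfl
    · have e1 : (e :: w).filterMap (rd e c) = false :: w.filterMap (rd e c) := by
        rw [List.filterMap_cons_some]; simp [rd]
      have e2 : (e :: w).filterMap (rd b d) = w.filterMap (rd b d) := by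
        rw [List.filterMap_cons_none]; simp [rd, nab, nda.symm]
      rw [e1, e2, hL, mul_assoc]
      rfl
    · have e1 : (e :: w).filterMap (rd a c) = w.filterMap (rd a c) := by
        rw [List.filterMap_cons_none]; simp [rd, nab.symm, nbc]
      have e2 : (e :: w).filterMap (rd e d) = false :: w.filterMap (rd e d) := by
        rw [List.filterMap_cons_some]; simp [rd]
      rw [e1, e2, hR, ← mul_assoc, ← mul_assoc]
      congr 1
      exact letter_comm (hI _ _ hab) hbc _
    · have e1 : (e :: w).filterMap (rd a e) = true :: w.filterMap (rd a e) := by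
        rw [List.filterMap_cons_some]; simp [rd, hac.symm]
      have e2 : (e :: w).filterMap (rd b d) = w.filterMap (rd b d) := by
        rw [List.filterMap_cons_none]; simp [rd, nbc.symm, ncd]
      rw [e1, e2, hL, mul_assoc]
      rfl
    · have e1 : (e :: w).filterMap (rd a c) = w.filterMap (rd a c) := by
        rw [List.filterMap_cons_none]; simp [rd, nda, ncd.symm]
      have e2 : (e :: w).filterMap (rd b e) = true :: w.filterMap (rd b e) := by
        rw [List.filterMap_cons_some]; simp [rd, hbd.symm]
      rw [e1, e2, hR, ← mul_assoc, ← mul_assoc]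
      congr 1
      exact letter_comm hda (hI _ _ hcd) _

/-- reading two dependent letters is invariant under the trace congruence -/
def readHom (a c : Fin k) : FreeMonoid (Fin k) →* FreeMonoid Bool where
  toFun w := FreeMonoid.ofList (w.toList.filterMap (rd a c))
  map_one' := rfl
  map_mul' x y := by
    rw [FreeMonoid.toList_mul, List.filterMap_append, FreeMonoid.ofList_append]

theorem read_eq (hI : ∀ e f, I e f → I f e) (hi : ∀ e, ¬ I e e) {a c : Fin k} (hac : ¬ I a c)
    {w w' : List (Fin k)} (h : trace k I w = trace k I w') : w.filterMap (rd a c) = w'.filterMap (rd a c) := by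
  unfold trace at h
  rw [Con.eq] at h
  have hle : traceCon k I ≤ Con.ker (readHom a c) := by
    apply Con.conGen_le.2
    rintro _ _ ⟨e, f, hef, rfl, rfl⟩
    rw [Con.ker_rel]
    show FreeMonoid.ofList ([e, f].filterMap (rd a c)) = FreeMonoid.ofList ([f, e].filterMap (rd a c))
    congr 1
    have hne : e ≠ f := by rintro rfl; exact hi _ hef
    have h5 : rd a c e = none ∨ rd a c f = none := by
      unfold rd
      by_cases h1 : e = a
      · subst h1
        right
        rw [if_neg (Ne.symm hne), if_neg]
        rintro rfl
        exact hac hef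
      · by_cases h2 : e = c
        · subst h2
          right
          rw [if_neg, if_neg (Ne.symm hne)]
          rintro rfl
          exact hac (hI _ _ hef)
        · left
          rw [if_neg h1, if_neg h2]
    simp only [List.filterMap_cons, List.filterMap_nil]
    rcases h5 with h5 | h5 <;> rw [h5]
  exact hle h

theorem let_eq {w w' : List (Fin k)} (h : trace k I w = trace k I w') (e : Fin k) : e ∈ w ↔ e ∈ w' := by
  unfold trace at h
  rw [Con.eq] at h
  let φ : FreeMonoid (Fin k) →* Multiplicative (Multiset (Fin k)) :=
    { toFun := fun w => Multiplicative.ofAdd (w.toList : Multiset (Fin k))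
      map_one' := rfl
      map_mul' := fun x y => by
        rw [FreeMonoid.toList_mul, ← Multiset.coe_add, ofAdd_add] }
  have hle : traceCon k I ≤ Con.ker φ := by
    apply Con.conGen_le.2
    rintro _ _ ⟨e, f, hef, rfl, rfl⟩
    rw [Con.ker_rel, map_mul, map_mul, mul_comm]
  have h1 : φ (FreeMonoid.ofList w) = φ (FreeMonoid.ofList w') := hle h
  have h2 : (w : Multiset (Fin k)) = (w' : Multiset (Fin k)) := h1
  rw [← Multiset.mem_coe, h2, Multiset.mem_coe]

theorem read_io {a c : Fin k} (hac : a ≠ c) (u : List Bool) : (io a c u).filterMap (rd a c) = u := by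
  induction u with
  | nil => rfl
  | cons x u ih =>
    show ((if x = true then c else a) :: io a c u).filterMap (rd a c) = x :: u
    rw [List.filterMap_cons_some (b := x), ih]
    cases x <;> simp [rd, hac.symm]

theorem read_io' {a b c d : Fin k} (hab : a ≠ b) (had : a ≠ d) (hcb : c ≠ b) (hcd : c ≠ d) (u : List Bool) :
    (io a c u).filterMap (rd b d) = [] := by
  induction u with
  | nil => rfl
  | cons x u ih =>
    show ((if x = true then c else a) :: io a c u).filterMap (rd b d) = []
    rw [List.filterMap_cons_none, ih]
    cases x <;> simp [rd, hab, had, hcb, hcd]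

theorem mem_io {a c : Fin k} {u : List Bool} {e : Fin k} (h : e ∈ io a c u) : e = a ∨ e = c := by
  obtain ⟨x, -, rfl⟩ := List.mem_map.1 h
  cases x <;> simp

theorem kw_io (hi : ∀ e, ¬ I e e) {a b c d : Fin k} (h4 : IsC4 I a b c d) (L : List Bool → List Bool → Prop)
    (u v : List Bool) : io a c u ++ io b d v ∈ KW a b c d L ↔ L u v := by
  obtain ⟨hac, hbd, hab, hbc, hcd, hda, -, -⟩ := h4
  have nab : a ≠ b := by rintro rfl; exact hi _ hab
  have nbc : b ≠ c := by rintro rfl; exact hi _ hbc
  have ncd : c ≠ d := by rintro rfl; exact hi _ hcd
  have nda : d ≠ a := by rintro rfl; exact hi _ hda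
  have e1 : (io a c u ++ io b d v).filterMap (rd a c) = u := by
    rw [List.filterMap_append, read_io hac, read_io' nab.symm nbc nda ncd.symm, List.append_nil]
  have e2 : (io a c u ++ io b d v).filterMap (rd b d) = v := by
    rw [List.filterMap_append, read_io hbd, read_io' nab nda.symm nbc.symm ncd, List.nil_append]
  show (_ ∧ L _ _) ↔ _
  rw [e1, e2]
  refine ⟨fun h => h.2, fun h => ⟨fun e he => ?_, h⟩⟩
  rcases List.mem_append.1 he with he | he
  · rcases mem_io he with h | h <;> tauto
  · rcases mem_io he with h | h <;> tauto

end tr

theorem tr0 : S_TR0 := by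
  intro k I hI hi a b c d h4 L w
  have hac := h4.2.2.2.2.2.2.1
  have hbd := h4.2.2.2.2.2.2.2
  have hcomm : ∀ u v : List Bool, Commute (trace k I (io a c u)) (trace k I (io b d v)) :=
    io_comm h4.2.2.1 (hI _ _ h4.2.2.2.2.2.1) (hI _ _ h4.2.2.2.1) h4.2.2.2.2.1
  constructor
  · intro h
    -- every element of the closure is the trace of a word of `KW (StP L)`
    have h1 : ∀ m ∈ Submonoid.closure (trace k I '' KW a b c d L), ∃ w' ∈ KW a b c d (StP L), m = trace k I w' := by
      intro m hm
      induction hm using Submonoid.closure_induction with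
      | mem x hx =>
        obtain ⟨w', hw', rfl⟩ := hx
        exact ⟨w', ⟨hw'.1, stp_one hw'.2⟩, rfl⟩
      | one => exact ⟨[], ⟨fun e he => absurd he List.not_mem_nil, StP.nil⟩, rfl⟩
      | mul x y _ _ hx hy =>
        obtain ⟨w1, hw1, rfl⟩ := hx
        obtain ⟨w2, hw2, rfl⟩ := hy
        refine ⟨w1 ++ w2, ⟨fun e he => ?_, ?_⟩, (trace_append _ _).symm⟩
        · rcases List.mem_append.1 he with he | he
          · exact hw1.1 e he
          · exact hw2.1 e he
        · rw [List.filterMap_append, List.filterMap_append]
          exact stp_append hw1.2 hw2.2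
    obtain ⟨w', hw', e⟩ := h1 _ h
    refine ⟨fun x hx => hw'.1 x ((let_eq e x).1 hx), ?_⟩
    rw [read_eq hI hi hac e, read_eq hI hi hbd e]
    exact hw'.2
  · rintro ⟨hw, hs⟩
    have h1 : ∀ u v, StP L u v → trace k I (io a c u) * trace k I (io b d v) ∈
        Submonoid.closure (trace k I '' KW a b c d L) := by
      intro u v h
      induction h with
      | nil => exact Submonoid.one_mem _
      | @cons u v u' v' hp _ ih =>
        have h2 : trace k I (io a c u) * trace k I (io b d v) ∈
            Submonoid.closure (trace k I '' KW a b c d L) := by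
          apply Submonoid.subset_closure
          exact ⟨io a c u ++ io b d v, (kw_io hi h4 L u v).2 hp, trace_append _ _⟩
        have e : trace k I (io a c (u ++ u')) * trace k I (io b d (v ++ v')) =
            (trace k I (io a c u) * trace k I (io b d v)) *
              (trace k I (io a c u') * trace k I (io b d v')) := by
          rw [io_append, io_append, trace_append, trace_append]
          have h5 := (hcomm u' v).eq
          calc trace k I (io a c u) * trace k I (io a c u') * (trace k I (io b d v) * trace k I (io b d v'))
              = trace k I (io a c u) * (trace k I (io a c u') * trace k I (io b d v)) * trace k I (io b d v') := by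
                simp only [mul_assoc]
            _ = _ := by
                rw [h5]
                simp only [mul_assoc]
        rw [e]
        exact Submonoid.mul_mem _ h2 ih
    rw [trace_norm hI hi h4 w hw]
    exact h1 _ _ hs

theorem tr1 (h0 : S_TR0) : S_TR1 := by
  intro k I hI hi a b c d h4 L hrec
  obtain ⟨S, _, _, h, hh⟩ := hrec
  have hcomm : ∀ u v : List Bool, Commute (trace k I (io a c u)) (trace k I (io b d v)) :=
    io_comm h4.2.2.1 (hI _ _ h4.2.2.2.2.2.1) (hI _ _ h4.2.2.2.1) h4.2.2.2.2.1
  have key : ∀ u v : List Bool, StP L u v ↔ h (trace k I (io a c u)) * h (trace k I (io b d v)) ∈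
      h '' (Submonoid.closure (trace k I '' KW a b c d L) : Set (TraceMonoid k I)) := by
    intro u v
    rw [← kw_io hi h4 (StP L) u v, ← h0 k I hI hi a b c d h4 L, ← map_mul, ← trace_append]
    constructor
    · intro hm
      exact ⟨_, hm, rfl⟩
    · intro hm
      have h2 : trace k I (io a c u ++ io b d v) ∈
          h ⁻¹' (h '' (Submonoid.closure (trace k I '' KW a b c d L) : Set (TraceMonoid k I))) := hm
      rw [← hh] at h2
      exact h2
  constructor
  · refine fin_det (fun u => h (trace k I (io a c u))) _ (Set.toFinite _) ?_
    intro u u' he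
    ext r
    show StP L (u ++ r.1) r.2 ↔ StP L (u' ++ r.1) r.2
    rw [key, key, io_append, io_append, trace_append, trace_append, map_mul, map_mul, he]
  · refine fin_det (fun v => h (trace k I (io b d v))) _ (Set.toFinite _) ?_
    intro v v' he
    ext r
    show StP L r.1 (v ++ r.2) ↔ StP L r.1 (v' ++ r.2)
    have h6 : ∀ x y, h (trace k I (io a c x)) * h (trace k I (io b d y)) =
        h (trace k I (io b d y)) * h (trace k I (io a c x)) := by
      intro x y
      rw [← map_mul, (hcomm x y).eq, map_mul]
    rw [key, key, h6, h6, io_append, io_append, trace_append, trace_append, map_mul, map_mul, he]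

end Pool.Agent.H596.STtr
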