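import Pool.Agent.H724.ST.Br

/-! # Star problem: the tables of the checkers (ST-TAB) -/

set_option autoImplicit false

namespace Pool.Agent.H195.STTab

open Pool.Agent.H724.ST
open Pool.Agent.H724.DL (Pay RS DS Act act dn drun Imm Tiled lok dstep)

theorem getD_map_range {α : Type} (F : ℕ → α) (m k : ℕ) (d : α) :
    ((List.range m).map F).getD k d = if k < m then F k else d := by
  rw [List.getD_eq_getElem?_getD, List.getElem?_map]
  by_cases h : k < m
  · rw [if_pos h, List.getElem?_range h]
    rfl
  · rw [if_neg h, List.getElem?_eq_none (by simpa using h)]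
    rfl

/-- Number of an action. -/
def an : Act → ℕ
  | .zero => 0
  | .keep => 1
  | .inc => 2

variable {Γ W : Type}

open Classical in
/-- Entry of the table. -/
noncomputable def gen {D p : ℕ} (R : RS Γ W) (e : Pay Γ ≃ Fin p) (st : DS W ≃ Fin D)
    (d f x y : ℕ) : ℕ :=
  if h : d < D ∧ x < p ∧ y < p then
    match dstep R (decide (f = 1)) (st.symm ⟨d, h.1⟩) (e.symm ⟨x, h.2.1⟩) (e.symm ⟨y, h.2.2⟩) with
    | none => 0
    | some r => 1 + (st r.1).val * 3 + an r.2
  else 0

theorem gen_eq {D p : ℕ} (R : RS Γ W) (e : Pay Γ ≃ Fin p) (st : DS W ≃ Fin D)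
    (d : DS W) (f : ℕ) (P P' : Pay Γ) :
    gen R e st (st d).val f (e P).val (e P').val =
      match dstep R (decide (f = 1)) d P P' with
      | none => 0
      | some r => 1 + (st r.1).val * 3 + an r.2 := by
  unfold gen
  rw [dif_pos ⟨(st d).isLt, (e P).isLt, (e P').isLt⟩]
  simp

theorem gen_bd {D p : ℕ} (R : RS Γ W) (e : Pay Γ ≃ Fin p) (st : DS W ≃ Fin D)
    (d f x y : ℕ) (h : gen R e st d f x y ≠ 0) : (gen R e st d f x y - 1) / 3 < D := by
  unfold gen at h ⊢
  split_ifs at h ⊢ with hh
  · revert h
    split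
    · intro h; exact absurd rfl h
    · rename_i r hr
      intro _
      have h1 := (st r.1).isLt
      have h2 : an r.2 < 3 := by cases r.2 <;> simp [an]
      omega
  · exact absurd rfl h

theorem idx_lt {D p d f x y : ℕ} (hd : d < D) (hf : f < 2) (hx : x < p) (hy : y < p) :
    ((d * 2 + f) * p + x) * p + y < D * 2 * p * p := by
  have h1 : d * 2 + f + 1 ≤ D * 2 := by omega
  have h2 : (d * 2 + f) * p + x + 1 ≤ D * 2 * p := by
    calc (d * 2 + f) * p + x + 1 ≤ (d * 2 + f) * p + p := by omega
      _ = (d * 2 + f + 1) * p := by ring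
      _ ≤ D * 2 * p := Nat.mul_le_mul_right _ h1
  calc ((d * 2 + f) * p + x) * p + y < ((d * 2 + f) * p + x) * p + p := by omega
    _ = ((d * 2 + f) * p + x + 1) * p := by ring
    _ ≤ D * 2 * p * p := Nat.mul_le_mul_right _ h2

theorem divmod {a b p : ℕ} (hb : b < p) : (a * p + b) / p = a ∧ (a * p + b) % p = b := by
  have hp : 0 < p := by omega
  constructor
  · rw [mul_comm, Nat.mul_add_div hp, Nat.div_eq_of_lt hb, add_zero]
  · rw [mul_comm, Nat.mul_add_mod, Nat.mod_eq_of_lt hb]

/-- The table. -/
noncomputable def GG {D p : ℕ} (R : RS Γ W) (e : Pay Γ ≃ Fin p) (st : DS W ≃ Fin D) : List ℕ :=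
  (List.range (D * 2 * p * p)).map fun i => gen R e st (i / p / p / 2) (i / p / p % 2) (i / p % p) (i % p)

theorem GG_bd {D p : ℕ} (R : RS Γ W) (e : Pay Γ ≃ Fin p) (st : DS W ≃ Fin D) (i : ℕ)
    (h : (GG R e st).getD i 0 ≠ 0) : ((GG R e st).getD i 0 - 1) / 3 < D := by
  unfold GG at h ⊢
  rw [getD_map_range] at h ⊢
  split_ifs at h ⊢ with hh
  · exact gen_bd R e st _ _ _ _ h
  · exact absurd rfl h

theorem GG_eq {D p : ℕ} (R : RS Γ W) (e : Pay Γ ≃ Fin p) (st : DS W ≃ Fin D)
    (d : DS W) (f : ℕ) (hf : f < 2) (P P' : Pay Γ) :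
    (GG R e st).getD ((((st d).val * 2 + f) * p + (e P).val) * p + (e P').val) 0 =
      match dstep R (decide (f = 1)) d P P' with
      | none => 0
      | some r => 1 + (st r.1).val * 3 + an r.2 := by
  unfold GG
  rw [getD_map_range, if_pos (idx_lt (st d).isLt hf (e P).isLt (e P').isLt)]
  have h1 := divmod (a := ((st d).val * 2 + f) * p + (e P).val) (e P').isLt
  have h2 := divmod (a := (st d).val * 2 + f) (e P).isLt
  have h3 : ((st d).val * 2 + f) / 2 = (st d).val := by omega
  have h4 : ((st d).val * 2 + f) % 2 = f := by omega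
  rw [h1.1, h1.2, h2.1, h2.2, h3, h4]
  exact gen_eq R e st d f P P'

theorem tab : S_TAB := by
  classical
  intro Γ W hΓ hW hne R
  obtain ⟨g0⟩ := hne
  have : Nonempty (Pay Γ) := ⟨⟨0, 0, 0, g0⟩⟩
  have : Nonempty (DS W) := ⟨DS.idle⟩
  have hD : 0 < Nat.card (DS W) := Nat.card_pos
  have hp : 0 < Nat.card (Pay Γ) := Nat.card_pos
  obtain ⟨D, hDe⟩ : ∃ D, D = Nat.card (DS W) := ⟨_, rfl⟩
  obtain ⟨p, hpe⟩ : ∃ p, p = Nat.card (Pay Γ) := ⟨_, rfl⟩
  rw [← hDe] at hD
  rw [← hpe] at hp
  have st0 : DS W ≃ Fin D := by rw [hDe]; exact Finite.equivFin (DS W)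
  have e : Pay Γ ≃ Fin p := by rw [hpe]; exact Finite.equivFin (Pay Γ)
  obtain ⟨st, hst⟩ : ∃ st : DS W ≃ Fin D, (st DS.idle).val = 0 := by
    refine ⟨st0.trans (Equiv.swap (st0 DS.idle) ⟨0, hD⟩), ?_⟩
    simp
  refine ⟨D, p, GG R e st,
    (List.range p).map (fun x => if h : x < p then decide (lok (e.symm ⟨x, h⟩)) else false),
    (List.range (p * p)).map (fun i =>
      if h : i / p < p ∧ i % p < p then
        decide ((e.symm ⟨i % p, h.2⟩).ph = (e.symm ⟨i / p, h.1⟩).ph + 1) else false),
    e, st, hst, ?_⟩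
  intro n
  refine ⟨⟨hp, ?_, ?_⟩, ?_, ?_, ?_⟩
  · show 1 ≤ D * (n + 2)
    exact Nat.mul_pos hD (by omega)
  · intro q x y
    show dlT p (GG R e st) n q x y ≤ D * (n + 2)
    unfold dlT
    generalize hI : (((q - 1) / (n + 2) * 2 + (if (q - 1) % (n + 2) = n then 1 else 0)) * p + x) * p + y = I
    by_cases h0 : (GG R e st).getD I 0 = 0
    · rw [if_pos h0]; exact Nat.zero_le _
    · rw [if_neg h0]
      have hb := GG_bd R e st I h0
      have hm : (q - 1) % (n + 2) < n + 2 := Nat.mod_lt _ (by omega)
      have h1 : (((GG R e st).getD I 0 - 1) / 3 + 1) * (n + 2) ≤ D * (n + 2) :=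
        Nat.mul_le_mul_right _ hb
      have h2 : (((GG R e st).getD I 0 - 1) / 3 + 1) * (n + 2) =
        ((GG R e st).getD I 0 - 1) / 3 * (n + 2) + (n + 2) := by ring
      have h3 : ((if ((GG R e st).getD I 0 - 1) % 3 = 0 then 0
        else if ((GG R e st).getD I 0 - 1) % 3 = 1 then (q - 1) % (n + 2)
        else min ((q - 1) % (n + 2) + 1) (n + 1)) : ℕ) ≤ n + 1 := by
        split_ifs
        · omega
        · omega
        · exact min_le_right _ _
      omega
  · intro P
    show ((List.range p).map _).getD (e P).val false = true ↔ _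
    rw [getD_map_range, if_pos (e P).isLt, dif_pos (e P).isLt]
    simp
  · intro P P'
    show ((List.range (p * p)).map _).getD ((e P).val * p + (e P').val) false = true ↔ _
    have h1 := divmod (a := (e P).val) (e P').isLt
    have hlt : (e P).val * p + (e P').val < p * p := by
      have h1 : ((e P).val + 1) * p ≤ p * p := Nat.mul_le_mul_right _ (e P).isLt
      have h2 := (e P').isLt
      have h3 : ((e P).val + 1) * p = (e P).val * p + p := by ring
      omega
    rw [getD_map_range, if_pos hlt]
    have hc : ((e P).val * p + (e P').val) / p < p ∧ ((e P).val * p + (e P').val) % p < p := by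
      rw [h1.1, h1.2]; exact ⟨(e P).isLt, (e P').isLt⟩
    rw [dif_pos hc]
    have ha : (⟨((e P).val * p + (e P').val) % p, hc.2⟩ : Fin p) = e P' := Fin.ext h1.2
    have hb : (⟨((e P).val * p + (e P').val) / p, hc.1⟩ : Fin p) = e P := Fin.ext h1.1
    rw [ha, hb]
    simp
  · intro d i P P'
    have hq1 : (1 + (st d).val * (n + 2) + i.val - 1) / (n + 2) = (st d).val := by
      rw [show 1 + (st d).val * (n + 2) + i.val - 1 = (st d).val * (n + 2) + i.val by omega]
      exact (divmod i.isLt).1
    have hq2 : (1 + (st d).val * (n + 2) + i.val - 1) % (n + 2) = i.val := by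
      rw [show 1 + (st d).val * (n + 2) + i.val - 1 = (st d).val * (n + 2) + i.val by omega]
      exact (divmod i.isLt).2
    have hf : (if i.val = n then 1 else 0 : ℕ) < 2 := by split_ifs <;> omega
    have hdec : decide ((if i.val = n then 1 else 0 : ℕ) = 1) = decide (i.val = n) := by
      by_cases h : i.val = n <;> simp [h]
    have key := GG_eq R e st d _ hf P P'
    rw [hdec] at key
    have hdl : (CT D p (GG R e st)
        ((List.range p).map (fun x => if h : x < p then decide (lok (e.symm ⟨x, h⟩)) else false))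
        ((List.range (p * p)).map (fun i =>
          if h : i / p < p ∧ i % p < p then
            decide ((e.symm ⟨i % p, h.2⟩).ph = (e.symm ⟨i / p, h.1⟩).ph + 1) else false)) n).dl
          (1 + (st d).val * (n + 2) + i.val) (e P).val (e P').val =
        dlT p (GG R e st) n (1 + (st d).val * (n + 2) + i.val) (e P).val (e P').val := rfl
    rw [hdl]
    unfold dlT
    rw [hq1, hq2, key]
    have hdn : dn R n (some (d, i)) P P' =
        (dstep R (decide (i.val = n)) d P P').map fun r => (r.1, act n r.2 i) := rfl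
    rw [hdn]
    cases hs : dstep R (decide (i.val = n)) d P P' with
    | none =>
      refine ⟨fun _ => by simp, fun d' i' h => by simp at h⟩
    | some r =>
      refine ⟨fun h => by simp at h, ?_⟩
      intro d' i' h
      simp only [Option.map_some, Option.some.injEq, Prod.mk.injEq] at h
      obtain ⟨h1, h2⟩ := h
      subst h1
      obtain ⟨r1, r2⟩ := r
      cases r2
      · have a1 : (1 + (st r1).val * 3 + an Act.zero - 1) / 3 = (st r1).val := by
          simp only [an]; omega
        have a2 : (1 + (st r1).val * 3 + an Act.zero - 1) % 3 = 0 := by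
          simp only [an]; omega
        have a3 : ¬ (1 + (st r1).val * 3 + an Act.zero = 0) := by omega
        simp only [a1, a2, a3, if_true, if_false]
        rw [← h2]
        simp [act]
      · have a1 : (1 + (st r1).val * 3 + an Act.keep - 1) / 3 = (st r1).val := by
          simp only [an]; omega
        have a2 : (1 + (st r1).val * 3 + an Act.keep - 1) % 3 = 1 := by
          simp only [an]; omega
        have a3 : ¬ (1 + (st r1).val * 3 + an Act.keep = 0) := by omega
        simp only [a1, a2, a3, if_false, one_ne_zero, if_true]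
        rw [← h2]
        simp [act]
      · have a1 : (1 + (st r1).val * 3 + an Act.inc - 1) / 3 = (st r1).val := by
          simp only [an]; omega
        have a2 : (1 + (st r1).val * 3 + an Act.inc - 1) % 3 = 2 := by
          simp only [an]; omega
        have a3 : ¬ (1 + (st r1).val * 3 + an Act.inc = 0) := by omega
        have a4 : ¬ ((2 : ℕ) = 0) := by omega
        have a5 : ¬ ((2 : ℕ) = 1) := by omega
        simp only [a1, a2, a3, a4, a5, if_false]
        rw [← h2]
        simp [act]

end Pool.Agent.H195.STTab
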